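import Pool.Agent.X96.HW.Wt

/-!
The averages over the directions of the line weights are Hardy weights.
-/

set_option autoImplicit false

open MeasureTheory Set Filter Topology
open scoped InnerProductSpace ENNReal ContDiff

namespace Pool.Agent.X96.HW

variable {E : Type*} [NormedAddCommGroup E] [InnerProductSpace ℝ E]
variable [MeasurableSpace E] [BorelSpace E] [FiniteDimensional ℝ E]

theorem lineWeight_meas {Ω : Set E} (hΩ : IsOpen Ω) (hb : Bornology.IsBounded Ω) (μ : Measure E)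
    [SFinite μ] : Measurable (lineWeight Ω μ) := by
  have h1 : StronglyMeasurable (Function.uncurry fun x e : E => wdir Ω x e) :=
    (wdir_meas hΩ hb).stronglyMeasurable
  exact (h1.integral_prod_right (ν := μ)).measurable.const_mul (1 / 4)

theorem lineWeight_nn (Ω : Set E) (μ : Measure E) (x : E) : 0 ≤ lineWeight Ω μ x := by
  unfold lineWeight
  have : 0 ≤ ∫ e, (1 / exitDist Ω x e + 1 / exitDist Ω x (-e)) ^ 2 ∂μ :=
    integral_nonneg fun e => sq_nonneg _
  positivity

/-- the inequality for one direction, all cases -/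
theorem one_dir {Ω : Set E} (hΩ : IsOpen Ω) (hb : Bornology.IsBounded Ω) (e : E)
    {φ : E → ℝ} (hφ : ContDiff ℝ 1 φ) (hc : HasCompactSupport φ) (hs : tsupport φ ⊆ Ω) :
    ∫⁻ x in Ω, ENNReal.ofReal (1 / 4 * wdir Ω x e * φ x ^ 2)
      ≤ ∫⁻ x, ENNReal.ofReal ((fderiv ℝ φ x e) ^ 2) := by
  by_cases he : e = 0
  · have : ∀ x, wdir Ω x e = 0 := fun x => by
      unfold wdir
      rw [he, neg_zero, exit_zero]
      simp
    simp only [this, mul_zero, zero_mul, ENNReal.ofReal_zero, lintegral_zero]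
    exact bot_le
  obtain ⟨i1, h1⟩ := hardy_dir hΩ hb he hφ hc hs
  have hdF : Continuous fun x => fderiv ℝ φ x e :=
    (hφ.continuous_fderiv (by norm_num)).clm_apply continuous_const
  have hdFc : HasCompactSupport fun x => fderiv ℝ φ x e := by
    refine (hc.fderiv (𝕜 := ℝ)).comp_left (g := fun L : E →L[ℝ] ℝ => L e) (by simp)
  have c2 : Continuous fun x => (fderiv ℝ φ x e) ^ 2 := hdF.pow 2
  have s2 : HasCompactSupport fun x => (fderiv ℝ φ x e) ^ 2 :=
    hdFc.comp_left (g := fun y : ℝ => y ^ 2) (by simp)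
  have i2 : Integrable fun x => (fderiv ℝ φ x e) ^ 2 := c2.integrable_of_hasCompactSupport s2
  rw [← ofReal_integral_eq_lintegral_ofReal i2 (Eventually.of_forall fun x => sq_nonneg _)]
  have i3 : Integrable fun x => 1 / 4 * wdir Ω x e * φ x ^ 2 :=
    (i1.const_mul (1 / 4)).congr (Eventually.of_forall fun x => by simp only; ring)
  refine (lintegral_mono' Measure.restrict_le_self le_rfl).trans ?_
  rw [← ofReal_integral_eq_lintegral_ofReal i3 (Eventually.of_forall fun x => by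
    have := wdir_nn Ω x e
    positivity)]
  refine ENNReal.ofReal_le_ofReal ?_
  have e1 : ∫ x, 1 / 4 * wdir Ω x e * φ x ^ 2 = 1 / 4 * ∫ x, wdir Ω x e * φ x ^ 2 := by
    rw [← integral_const_mul]
    refine integral_congr_ae (Eventually.of_forall fun x => ?_)
    simp only
    ring
  rw [e1]
  linarith

/-- **The averages of the line weights are Hardy weights.** -/
theorem lineWeight_hardy {Ω : Set E} (hΩ : IsOpen Ω) (hb : Bornology.IsBounded Ω) (μ : Measure E)
    [SFinite μ] (hμ : ∀ ξ : E, ∫⁻ e, ENNReal.ofReal (⟪e, ξ⟫_ℝ ^ 2) ∂μ ≤ ENNReal.ofReal (‖ξ‖ ^ 2)) :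
    HardyWeight Ω (lineWeight Ω μ) := by
  refine ⟨lineWeight_meas hΩ hb μ, fun x _ => lineWeight_nn Ω μ x, fun φ hφ hc hs => ?_⟩
  have hφ1 : ContDiff ℝ 1 φ := hφ.of_le (by norm_cast)
  have hwm := wdir_meas hΩ hb
  have mφ : Measurable φ := hφ.continuous.measurable
  -- the weight is at most the lower integral
  have s1 : ∀ x, ENNReal.ofReal (lineWeight Ω μ x * φ x ^ 2)
      ≤ ∫⁻ e, ENNReal.ofReal (1 / 4 * wdir Ω x e * φ x ^ 2) ∂μ := by
    intro x
    have e1 : lineWeight Ω μ x * φ x ^ 2 = ∫ e, 1 / 4 * wdir Ω x e * φ x ^ 2 ∂μ := by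
      unfold lineWeight
      rw [integral_mul_const, integral_const_mul]
      rfl
    have m1 : Measurable fun e => 1 / 4 * wdir Ω x e * φ x ^ 2 :=
      ((hwm.comp (g := fun z : E × E => wdir Ω z.1 z.2) (f := fun e : E => (x, e))
        measurable_prodMk_left).const_mul (1 / 4)).mul_const _
    rw [e1, integral_eq_lintegral_of_nonneg_ae (Eventually.of_forall fun e => by
      have := wdir_nn Ω x e
      positivity) m1.aestronglyMeasurable]
    exact ENNReal.ofReal_toReal_le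
  have m2 : Measurable fun z : E × E => ENNReal.ofReal (1 / 4 * wdir Ω z.1 z.2 * φ z.1 ^ 2) :=
    ((hwm.const_mul (1 / 4)).mul ((mφ.comp measurable_fst).pow_const 2)).ennreal_ofReal
  have cF : Continuous fun z : E × E => fderiv ℝ φ z.1 z.2 :=
    ((hφ1.continuous_fderiv (by norm_num)).comp continuous_fst).clm_apply continuous_snd
  have m3 : Measurable fun z : E × E => ENNReal.ofReal ((fderiv ℝ φ z.1 z.2) ^ 2) :=
    (cF.measurable.pow_const 2).ennreal_ofReal
  calc ∫⁻ x in Ω, ENNReal.ofReal (lineWeight Ω μ x * φ x ^ 2)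
      ≤ ∫⁻ x in Ω, ∫⁻ e, ENNReal.ofReal (1 / 4 * wdir Ω x e * φ x ^ 2) ∂μ :=
        lintegral_mono fun x => s1 x
    _ = ∫⁻ e, (∫⁻ x in Ω, ENNReal.ofReal (1 / 4 * wdir Ω x e * φ x ^ 2)) ∂μ :=
        lintegral_lintegral_swap m2.aemeasurable
    _ ≤ ∫⁻ e, (∫⁻ x, ENNReal.ofReal ((fderiv ℝ φ x e) ^ 2)) ∂μ :=
        lintegral_mono fun e => one_dir hΩ hb e hφ1 hc hs
    _ = ∫⁻ x, ∫⁻ e, ENNReal.ofReal ((fderiv ℝ φ x e) ^ 2) ∂μ := by
        refine lintegral_lintegral_swap (f := fun e x => ENNReal.ofReal ((fderiv ℝ φ x e) ^ 2)) ?_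
        exact (m3.comp measurable_swap).aemeasurable
    _ ≤ ∫⁻ x, ENNReal.ofReal (‖fderiv ℝ φ x‖ ^ 2) := by
        refine lintegral_mono fun x => ?_
        obtain ⟨ξ, h1, h2⟩ := fderiv_eq_inner φ x 0
        simp only [h2]
        rw [← h1]
        exact hμ ξ
    _ = ENNReal.ofReal (∫ x, ‖fderiv ℝ φ x‖ ^ 2) := by
        rw [ofReal_integral_eq_lintegral_ofReal _ (Eventually.of_forall fun x => sq_nonneg _)]
        have c4 : Continuous fun x => ‖fderiv ℝ φ x‖ ^ 2 :=
          (hφ1.continuous_fderiv (by norm_num)).norm.pow 2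
        exact c4.integrable_of_hasCompactSupport
          ((hc.fderiv (𝕜 := ℝ)).comp_left (g := fun L : E →L[ℝ] ℝ => ‖L‖ ^ 2) (by simp))

end Pool.Agent.X96.HW
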