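import Pool.Agent.X96.HW.Wt

/-!
The classical Hardy weight with a centre, in dimension three.
-/

set_option autoImplicit false

open MeasureTheory Set Filter Topology
open scoped InnerProductSpace ENNReal ContDiff

namespace Pool.Agent.X96.HW

abbrev E3' := EuclideanSpace ℝ (Fin 3)

theorem int_deriv_zero {h : E3' → ℝ} (hh : ContDiff ℝ 1 h) (hc : HasCompactSupport h) (e : E3') :
    ∫ x, fderiv ℝ h x e = 0 := by
  have c1 : Continuous fun x => fderiv ℝ h x e :=
    (hh.continuous_fderiv (by norm_num)).clm_apply continuous_const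
  have s1 : HasCompactSupport fun x => fderiv ℝ h x e :=
    (hc.fderiv (𝕜 := ℝ)).comp_left (g := fun L : E3' →L[ℝ] ℝ => L e) (by simp)
  have i1 : Integrable fun x => fderiv ℝ h x e := c1.integrable_of_hasCompactSupport s1
  have i2 : Integrable h := hh.continuous.integrable_of_hasCompactSupport hc
  have key := integral_mul_fderiv_eq_neg_fderiv_mul_of_integrable (𝕜 := ℝ) (μ := volume)
    (f := h) (g := fun _ => (1 : ℝ)) (v := e) (by simpa using i1) (by simp) (by simpa using i2)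
    (fun x _ => hh.differentiable (by norm_num) x) (fun x _ => differentiableAt_const _)
  simpa using key

/-- the inequality with a regularized centre -/
theorem center_eps {φ : E3' → ℝ} (hφ : ContDiff ℝ 1 φ) (hc : HasCompactSupport φ) (z : E3')
    {ε : ℝ} (hε : 0 < ε) :
    Integrable (fun x => φ x ^ 2 / (4 * (‖x - z‖ ^ 2 + ε))) ∧
    ∫ x, φ x ^ 2 / (4 * (‖x - z‖ ^ 2 + ε)) ≤ ∫ x, ‖fderiv ℝ φ x‖ ^ 2 := by
  set Q : E3' → ℝ := fun x => ‖x - z‖ ^ 2 + ε with hQ
  have hQ0 : ∀ x, 0 < Q x := fun x => by simp only [hQ]; positivity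
  have hQs : ContDiff ℝ 1 Q := by
    have : ContDiff ℝ 1 fun x : E3' => ‖x - z‖ ^ 2 := (contDiff_id.sub contDiff_const).norm_sq ℝ
    exact this.add contDiff_const
  have hQd : ∀ x v, fderiv ℝ Q x v = 2 * ⟪x - z, v⟫_ℝ := by
    intro x v
    have h1 : HasFDerivAt (fun x : E3' => ‖x - z‖ ^ 2)
        (2 • (innerSL ℝ (x - z)).comp (ContinuousLinearMap.id ℝ E3')) x :=
      ((hasFDerivAt_id x).sub_const z).norm_sq
    have h2 : HasFDerivAt Q (2 • (innerSL ℝ (x - z)).comp (ContinuousLinearMap.id ℝ E3')) x :=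
      h1.add_const ε
    rw [h2.fderiv]
    simp [two_smul, two_mul, inner_sub_left]
  set X : Fin 3 → E3' → ℝ := fun i x => (x i - z i) / Q x with hX
  have hcoord : ∀ i : Fin 3, ContDiff ℝ 1 fun x : E3' => x i - z i := fun i => by fun_prop
  have hXs : ∀ i, ContDiff ℝ 1 (X i) := fun i => (hcoord i).div hQs fun x => (hQ0 x).ne'
  set e : Fin 3 → E3' := fun i => EuclideanSpace.single i (1 : ℝ) with he
  have hcd : ∀ i x, HasFDerivAt (fun x : E3' => x i - z i)
      (EuclideanSpace.proj i : E3' →L[ℝ] ℝ) x := fun i x =>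
    ((EuclideanSpace.proj i : E3' →L[ℝ] ℝ).hasFDerivAt).sub_const (z i)
  have hXd : ∀ i x, fderiv ℝ (X i) x (e i) = 1 / Q x - 2 * (x i - z i) ^ 2 / Q x ^ 2 := by
    intro i x
    have h0 : HasFDerivAt (fun x => (Q x)⁻¹) (-(Q x ^ 2)⁻¹ • fderiv ℝ Q x) x :=
      (hasDerivAt_inv (hQ0 x).ne').comp_hasFDerivAt x
        (hQs.differentiable (by norm_num) x).hasFDerivAt
    have h1 := (hcd i x).mul h0
    have e1 : (X i) = fun x => (x i - z i) * (Q x)⁻¹ := by
      funext x
      simp only [hX, div_eq_mul_inv]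
    rw [e1]
    erw [h1.fderiv]
    have h3 : ⟪x - z, e i⟫_ℝ = x i - z i := by
      simp [he, EuclideanSpace.inner_single_right]
    have h4 : (EuclideanSpace.proj i : E3' →L[ℝ] ℝ) (e i) = 1 := by simp [he]
    simp only [ContinuousLinearMap.add_apply, ContinuousLinearMap.smul_apply, smul_eq_mul,
      ContinuousLinearMap.neg_apply, hQd, h3, h4]
    have := (hQ0 x).ne'
    field_simp
    ring
  -- the divergence
  have hdiv : ∀ i, ∫ x, (2 * φ x * fderiv ℝ φ x (e i) * X i x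
      + φ x ^ 2 * (1 / Q x - 2 * (x i - z i) ^ 2 / Q x ^ 2)) = 0 := by
    intro i
    have h1 : ContDiff ℝ 1 fun x => φ x ^ 2 * X i x := (hφ.pow 2).mul (hXs i)
    have h2 : HasCompactSupport fun x => φ x ^ 2 * X i x := by
      refine HasCompactSupport.mul_right ?_
      exact hc.comp_left (g := fun y : ℝ => y ^ 2) (by simp)
    rw [← int_deriv_zero h1 h2 (e i)]
    refine integral_congr_ae (Eventually.of_forall fun x => ?_)
    have h3 := ((hφ.differentiable (by norm_num) x).hasFDerivAt.pow 2).mul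
      ((hXs i).differentiable (by norm_num) x).hasFDerivAt
    simp only
    erw [h3.fderiv]
    simp only [ContinuousLinearMap.add_apply, ContinuousLinearMap.smul_apply, smul_eq_mul, hXd]
    simp only [Nat.cast_ofNat, pow_one, Nat.add_one_sub_one]
    ring
  have c1 : ∀ v : E3', Continuous fun x => fderiv ℝ φ x v := fun v =>
    (hφ.continuous_fderiv (by norm_num)).clm_apply continuous_const
  have cQ : Continuous Q := hQs.continuous
  have cX : ∀ i, Continuous (X i) := fun i => (hXs i).continuous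
  have cφ : Continuous φ := hφ.continuous
  have hQne : ∀ x, Q x ≠ 0 := fun x => (hQ0 x).ne'
  have hQne2 : ∀ x, Q x ^ 2 ≠ 0 := fun x => pow_ne_zero 2 (hQ0 x).ne'
  have sup0 : ∀ g : E3' → ℝ, (∀ s, φ s = 0 → g s = 0) → HasCompactSupport g := by
    intro g hg
    refine HasCompactSupport.intro' (K := tsupport φ) hc (isClosed_tsupport φ) fun s hsn => ?_
    exact hg s (image_eq_zero_of_notMem_tsupport hsn)
  have ccoord : ∀ i : Fin 3, Continuous fun x : E3' => x i - z i := fun i => (hcoord i).continuous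
  have iT : ∀ i, Integrable fun x => (2 * φ x * fderiv ℝ φ x (e i) * X i x
      + φ x ^ 2 * (1 / Q x - 2 * (x i - z i) ^ 2 / Q x ^ 2)) := by
    intro i
    refine Continuous.integrable_of_hasCompactSupport ?_ (sup0 _ fun s hs => by rw [hs]; ring)
    refine (((continuous_const.mul cφ).mul (c1 (e i))).mul (cX i)).add ((cφ.pow 2).mul ?_)
    exact (continuous_const.div cQ hQne).sub
      (((continuous_const.mul ((ccoord i).pow 2))).div (cQ.pow 2) hQne2)
  have i1 : Integrable fun x => φ x ^ 2 / (4 * Q x) := by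
    refine Continuous.integrable_of_hasCompactSupport ?_ (sup0 _ fun s hs => by rw [hs]; simp)
    exact (cφ.pow 2).div (continuous_const.mul cQ) fun x => mul_ne_zero (by norm_num) (hQne x)
  refine ⟨i1, ?_⟩
  have iF : Integrable fun x => ‖fderiv ℝ φ x‖ ^ 2 := by
    have c4 : Continuous fun x => ‖fderiv ℝ φ x‖ ^ 2 :=
      (hφ.continuous_fderiv (by norm_num)).norm.pow 2
    exact c4.integrable_of_hasCompactSupport
      ((hc.fderiv (𝕜 := ℝ)).comp_left (g := fun L : E3' →L[ℝ] ℝ => ‖L‖ ^ 2) (by simp))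
  have hsum : ∫ x, ∑ i, (2 * φ x * fderiv ℝ φ x (e i) * X i x
      + φ x ^ 2 * (1 / Q x - 2 * (x i - z i) ^ 2 / Q x ^ 2)) = 0 := by
    rw [integral_finset_sum _ fun i _ => iT i]
    simp only [hdiv, Finset.sum_const_zero]
  have iS : Integrable fun x => ∑ i, (2 * φ x * fderiv ℝ φ x (e i) * X i x
      + φ x ^ 2 * (1 / Q x - 2 * (x i - z i) ^ 2 / Q x ^ 2)) :=
    integrable_finset_sum _ fun i _ => iT i
  have hle : ∫ x, (φ x ^ 2 / (4 * Q x) - 1 / 2 * ∑ i, (2 * φ x * fderiv ℝ φ x (e i) * X i x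
      + φ x ^ 2 * (1 / Q x - 2 * (x i - z i) ^ 2 / Q x ^ 2))) ≤ ∫ x, ‖fderiv ℝ φ x‖ ^ 2 := by
    refine integral_mono (i1.sub (iS.const_mul (1 / 2))) iF fun x => ?_
    obtain ⟨ξ, h1, h2⟩ := fderiv_eq_inner φ x 0
    have h3 : ∀ i, fderiv ℝ φ x (e i) = ξ i := fun i => by
      rw [h2]
      simp [he, EuclideanSpace.inner_single_left]
    have h4 : ‖fderiv ℝ φ x‖ ^ 2 = ξ 0 ^ 2 + ξ 1 ^ 2 + ξ 2 ^ 2 := by
      rw [← h1, EuclideanSpace.norm_sq_eq, Fin.sum_univ_three]
      simp only [Real.norm_eq_abs, sq_abs]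
    have h5 : Q x = (x 0 - z 0) ^ 2 + (x 1 - z 1) ^ 2 + (x 2 - z 2) ^ 2 + ε := by
      simp only [hQ]
      rw [EuclideanSpace.norm_sq_eq, Fin.sum_univ_three]
      simp only [Real.norm_eq_abs, sq_abs, PiLp.sub_apply]
    simp only [h3, h4, Fin.sum_univ_three, hX]
    have hq := hQ0 x
    set q := Q x with hq'
    set a := x 0 - z 0
    set b := x 1 - z 1
    set c := x 2 - z 2
    set p := φ x
    have e2 : c ^ 2 = q - ε - a ^ 2 - b ^ 2 := by rw [h5]; ring
    have h6 : p ^ 2 / (4 * q) - 1 / 2 * (2 * p * ξ 0 * (a / q)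
        + p ^ 2 * (1 / q - 2 * a ^ 2 / q ^ 2) + (2 * p * ξ 1 * (b / q)
        + p ^ 2 * (1 / q - 2 * b ^ 2 / q ^ 2)) + (2 * p * ξ 2 * (c / q)
        + p ^ 2 * (1 / q - 2 * c ^ 2 / q ^ 2)))
        = (ξ 0 ^ 2 + ξ 1 ^ 2 + ξ 2 ^ 2) - ((ξ 0 + p * a / (2 * q)) ^ 2
          + (ξ 1 + p * b / (2 * q)) ^ 2 + (ξ 2 + p * c / (2 * q)) ^ 2)
          - p ^ 2 * ε * (5 / (4 * q ^ 2)) := by
      have hqn : q ≠ 0 := hq.ne'
      field_simp
      ring_nf
      rw [e2]
      ring
    rw [h6]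
    have h7 : 0 ≤ p ^ 2 * ε * (5 / (4 * q ^ 2)) := by positivity
    nlinarith [sq_nonneg (ξ 0 + p * a / (2 * q)), sq_nonneg (ξ 1 + p * b / (2 * q)),
      sq_nonneg (ξ 2 + p * c / (2 * q))]
  rw [integral_sub i1 (iS.const_mul (1 / 2)), integral_const_mul, hsum] at hle
  linarith

/-- **The weight with a centre.** -/
theorem center_hardy (Ω : Set E3') (z : E3') :
    HardyWeight Ω fun x : E3' => 1 / (4 * ‖x - z‖ ^ 2) := by
  refine ⟨by fun_prop, fun x _ => by positivity, fun φ hφ hc _ => ?_⟩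
  have hφ1 : ContDiff ℝ 1 φ := hφ.of_le (by norm_cast)
  set g : ℕ → E3' → ℝ≥0∞ := fun n x =>
    ENNReal.ofReal (φ x ^ 2 / (4 * (‖x - z‖ ^ 2 + 1 / (n + 1)))) with hg
  have h1 : ∀ x, ENNReal.ofReal (1 / (4 * ‖x - z‖ ^ 2) * φ x ^ 2)
      ≤ Filter.liminf (fun n => g n x) atTop := by
    intro x
    by_cases hx : x = z
    · rw [hx]
      simp
    have hr : 0 < ‖x - z‖ ^ 2 := by
      have : 0 < ‖x - z‖ := norm_pos_iff.2 (sub_ne_zero.2 hx)
      positivity
    have h2 : Tendsto (fun n : ℕ => φ x ^ 2 / (4 * (‖x - z‖ ^ 2 + 1 / ((n : ℝ) + 1)))) atTop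
        (𝓝 (φ x ^ 2 / (4 * (‖x - z‖ ^ 2 + 0)))) := by
      refine tendsto_const_nhds.div (tendsto_const_nhds.mul (tendsto_const_nhds.add
        tendsto_one_div_add_atTop_nhds_zero_nat)) ?_
      rw [add_zero]
      positivity
    have h3 := (ENNReal.continuous_ofReal.tendsto _).comp h2
    have h4 : Filter.liminf (fun n => g n x) atTop
        = ENNReal.ofReal (φ x ^ 2 / (4 * (‖x - z‖ ^ 2 + 0))) := h3.liminf_eq
    rw [h4, add_zero]
    refine ENNReal.ofReal_le_ofReal (le_of_eq ?_)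
    ring
  calc ∫⁻ x in Ω, ENNReal.ofReal (1 / (4 * ‖x - z‖ ^ 2) * φ x ^ 2)
      ≤ ∫⁻ x, ENNReal.ofReal (1 / (4 * ‖x - z‖ ^ 2) * φ x ^ 2) :=
        lintegral_mono' Measure.restrict_le_self le_rfl
    _ ≤ ∫⁻ x, Filter.liminf (fun n => g n x) atTop := lintegral_mono h1
    _ ≤ Filter.liminf (fun n => ∫⁻ x, g n x) atTop := by
        refine lintegral_liminf_le fun n => ?_
        have cφ : Measurable φ := hφ.continuous.measurable
        exact ((cφ.pow_const 2).div (by fun_prop)).ennreal_ofReal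
    _ ≤ ENNReal.ofReal (∫ x, ‖fderiv ℝ φ x‖ ^ 2) := by
        refine Filter.liminf_le_of_frequently_le' (Frequently.of_forall fun n => ?_)
        obtain ⟨i1, h5⟩ := center_eps hφ1 hc z (ε := 1 / ((n : ℝ) + 1)) (by positivity)
        have h6 : ∫⁻ x, g n x = ENNReal.ofReal
            (∫ x, φ x ^ 2 / (4 * (‖x - z‖ ^ 2 + 1 / ((n : ℝ) + 1)))) := by
          rw [ofReal_integral_eq_lintegral_ofReal i1
            (Eventually.of_forall fun x => by positivity)]
        rw [h6]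
        exact ENNReal.ofReal_le_ofReal h5

end Pool.Agent.X96.HW
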