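import Pool.Agent.X96.HW.Form2
import Pool.Agent.TH340.FF.En2

/-!
Energy equality from Hardy weights, without smallness.
-/

set_option autoImplicit false

open MeasureTheory Set Filter Topology
open scoped InnerProductSpace ENNReal ContDiff

namespace Pool.Agent.X96.HW

open H772R2.NS Pool.Agent.TH340.FF

/-- The condition on the velocity `U` at a fixed time: `|U - a| ≤ C √W + g`, and for a sign `σ` the
strain of `a` satisfies `σ S(a) ≥ -(C W + l)` and `σ div a ≤ C W + l`, where `W` is a Hardy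
weight. -/
def SplitOne {E : Type*} [NormedAddCommGroup E] [InnerProductSpace ℝ E] [MeasureSpace E]
    (Ω : Set E) (C g l : ℝ) (U : E → E) : Prop :=
  ∃ (W : E → ℝ) (a : E → E) (D : E → E →L[ℝ] E) (σ : ℝ), HardyWeight Ω W ∧ WeakDeriv Ω a D ∧
    (σ = 1 ∨ σ = -1) ∧
    (∀ᵐ x ∂(volume.restrict Ω), ‖U x - a x‖ ≤ C * Real.sqrt (W x) + g) ∧
    ∀ᵐ x ∂(volume.restrict Ω), (∀ ξ : E, -(σ * ⟪ξ, D x ξ⟫_ℝ) ≤ (C * W x + l) * ‖ξ‖ ^ 2) ∧
      σ * LinearMap.trace ℝ E (D x : E →ₗ[ℝ] E) ≤ C * W x + l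

variable {Ω : Set E3}

theorem trace_E3 (D : E3 →L[ℝ] E3) :
    LinearMap.trace ℝ E3 (D : E3 →ₗ[ℝ] E3) = ∑ i, ⟪ev i, D (ev i)⟫_ℝ := by
  rw [LinearMap.trace_eq_sum_inner _ (EuclideanSpace.basisFun (Fin 3) ℝ)]
  simp

/-- a lower bound of the quadratic form and an upper bound of the trace give an upper bound -/
theorem upper_of_lower {D : E3 →L[ℝ] E3} {σ m : ℝ}
    (h : ∀ ξ : E3, -(σ * ⟪ξ, D ξ⟫_ℝ) ≤ m * ‖ξ‖ ^ 2)
    (ht : σ * LinearMap.trace ℝ E3 (D : E3 →ₗ[ℝ] E3) ≤ m) (ξ : E3) :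
    σ * ⟪ξ, D ξ⟫_ℝ ≤ 3 * m * ‖ξ‖ ^ 2 := by
  rw [trace_E3] at ht
  have h01 := h (WithLp.toLp 2 ![-(ξ 1), ξ 0, 0])
  have h02 := h (WithLp.toLp 2 ![-(ξ 2), 0, ξ 0])
  have h12 := h (WithLp.toLp 2 ![0, -(ξ 2), ξ 1])
  rw [expand_E3, norm_sq_E3] at h01 h02 h12
  rw [expand_E3, norm_sq_E3]
  simp only [Fin.sum_univ_three, Matrix.cons_val_zero, Matrix.cons_val_one,
    Matrix.cons_val_two, Matrix.head_cons, Matrix.tail_cons, Matrix.cons_val] at *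
  have h3 : σ * (⟪ev 0, D (ev 0)⟫_ℝ + ⟪ev 1, D (ev 1)⟫_ℝ + ⟪ev 2, D (ev 2)⟫_ℝ)
      * (ξ 0 ^ 2 + ξ 1 ^ 2 + ξ 2 ^ 2) ≤ m * (ξ 0 ^ 2 + ξ 1 ^ 2 + ξ 2 ^ 2) := by
    gcongr
  nlinarith

/-- two-sided form bound -/
theorem form_abs (hΩ : IsOpen Ω) {C g l : ℝ} (hC : 0 ≤ C) (hg : 0 ≤ g) (hl : 0 ≤ l)
    {U : L2V Ω} {G : L2M Ω} (hU : (U, G) ∈ graphW Ω) (hs : SplitOne Ω C g l (U : E3 → E3))
    {p : L2V Ω × L2M Ω} (hp : p ∈ graphW Ω) :
    |⟪tensL p.1, G⟫_ℝ| ≤ (4 * C + 1) * ‖p.2‖ ^ 2 + (3 * l + g ^ 2) * ‖p.1‖ ^ 2 := by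
  have hm : MeasurableSet Ω := hΩ.measurableSet
  obtain ⟨W, a, D, σ, hW, hD, hσ, h1, h2⟩ := hs
  have hU' : (-U, -G) ∈ graphW Ω := (graphW Ω).neg_mem hU
  have hD' : WeakDeriv Ω (fun x => -a x) (fun x => -D x) := by
    refine ⟨hD.int.neg, hD.int'.neg, fun η e1 e2 e3 v w => ?_⟩
    have := hD.eq η e1 e2 e3 v w
    simp only [inner_neg_right, neg_mul, integral_neg, ContinuousLinearMap.neg_apply]
    rw [this]
  -- both bounds for the strain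
  have hboth : ∀ᵐ x ∂(volume.restrict Ω), (∀ ξ : E3, -⟪ξ, D x ξ⟫_ℝ
      ≤ (3 * C * 1 * W x + 3 * l) * ‖ξ‖ ^ 2) ∧ ∀ ξ : E3, -⟪ξ, (-D x) ξ⟫_ℝ
      ≤ (3 * C * 1 * W x + 3 * l) * ‖ξ‖ ^ 2 := by
    filter_upwards [h2, ae_restrict_mem hm] with x hx hxΩ
    have hw := hW.2.1 x hxΩ
    have hnn : ∀ ξ : E3, (C * W x + l) * ‖ξ‖ ^ 2 ≤ (3 * C * 1 * W x + 3 * l) * ‖ξ‖ ^ 2 := by
      intro ξ
      have : 0 ≤ C * W x := by positivity
      refine mul_le_mul_of_nonneg_right ?_ (by positivity)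
      linarith
    have hup := fun ξ => upper_of_lower hx.1 hx.2 ξ
    rcases hσ with rfl | rfl
    · refine ⟨fun ξ => ?_, fun ξ => ?_⟩
      · have := hx.1 ξ
        rw [one_mul] at this
        exact this.trans (hnn ξ)
      · have := hup ξ
        rw [one_mul] at this
        rw [ContinuousLinearMap.neg_apply, inner_neg_right, neg_neg]
        refine this.trans (le_of_eq ?_)
        ring
    · refine ⟨fun ξ => ?_, fun ξ => ?_⟩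
      · have := hup ξ
        rw [neg_one_mul] at this
        refine this.trans (le_of_eq ?_)
        ring
      · have := hx.1 ξ
        rw [neg_one_mul, neg_neg] at this
        rw [ContinuousLinearMap.neg_apply, inner_neg_right, neg_neg]
        exact this.trans (hnn ξ)
  have s1 : Split Ω 1 C (3 * C) g (3 * l) (U : E3 → E3) := by
    refine ⟨W, a, D, hW, hD, ?_, hboth.mono fun x hx => hx.1⟩
    filter_upwards [h1] with x hx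
    rw [mul_one]
    exact hx
  have s2 : Split Ω 1 C (3 * C) g (3 * l) ((-U : L2V Ω) : E3 → E3) := by
    refine ⟨W, fun x => -a x, fun x => -D x, hW, hD', ?_, hboth.mono fun x hx => hx.2⟩
    filter_upwards [h1, Lp.coeFn_neg U] with x hx hx2
    rw [mul_one, hx2]
    have : (-(U : E3 → E3)) x - -a x = -((U : E3 → E3) x - a x) := by
      simp only [Pi.neg_apply]
      abel
    rw [this, norm_neg]
    exact hx
  have f1 := form_split hΩ one_pos hC (by positivity : 0 ≤ 3 * C) one_pos hg hU s1 hp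
  have f2 := form_split hΩ one_pos hC (by positivity : 0 ≤ 3 * C) one_pos hg hU' s2 hp
  rw [inner_neg_right, neg_neg] at f2
  have e1 : (C + 3 * C + 1) * 1 = 4 * C + 1 := by ring
  have e2 : g ^ 2 / (4 * 1 * 1) ≤ g ^ 2 := by
    have := sq_nonneg g
    linarith
  have e3 : (3 * l + g ^ 2 / (4 * 1 * 1)) * ‖p.1‖ ^ 2 ≤ (3 * l + g ^ 2) * ‖p.1‖ ^ 2 := by
    gcongr
  rw [e1] at f1 f2
  rw [abs_le]
  constructor <;> linarith

/-- **Energy equality from Hardy weights, bounds for pairs or a bound in `L⁴`.** -/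
theorem energy_hardy (hΩ : IsOpen Ω) (hbd : Bornology.IsBounded Ω) {ν T C : ℝ} (hν : 0 ≤ ν)
    (hT : 0 < T) (hC : 0 ≤ C)
    {u : ℝ → L2V Ω} {G : ℝ → L2M Ω} {f : ℝ → L2V Ω} (h : IsWeakSolution Ω ν T u G f)
    {g b : ℝ → ℝ} (hg0 : ∀ t, 0 ≤ g t) (hg : IntegrableOn (fun t => g t ^ 2) (Ioo 0 T))
    (hb0 : ∀ t, 0 ≤ b t) (hb : IntegrableOn b (Ioo 0 T))
    (hp : ∀ᵐ t ∂(volume.restrict (Ioo 0 T)), SplitOne Ω C (g t) (b t) (u t : E3 → E3) ∨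
      PairBd C (b t) (Pool.Agent.TH340.FF.ext Ω (u t)) ∨
      (PairBd C (b t) fun x => -Pool.Agent.TH340.FF.ext Ω (u t) x) ∨
      (eLpNorm (u t) 4 (volume.restrict Ω)) ^ 4 ≤ ENNReal.ofReal (b t)) :
    ∀ t ∈ Icc 0 T, energyDefect ν u G f t = 0 := by
  obtain ⟨M, hM⟩ := h.bdd
  have hM0 : 0 ≤ M := (norm_nonneg _).trans (hM 0 ⟨le_rfl, hT.le⟩)
  have i1 : Integrable (fun t => g t ^ 2) (volume.restrict (Ioo 0 T)) := hg
  have i2 : Integrable b (volume.restrict (Ioo 0 T)) := hb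
  refine energy_eq hΩ (a := 2 * (C / Real.log 2 ^ 2) + (4 * C + 1)) hν hT (by positivity) h hM
    (b := fun t => (10 * M ^ 2 + 1) * (b t + g t ^ 2))
    (fun t => mul_nonneg (by positivity) (add_nonneg (hb0 t) (sq_nonneg _)))
    ((i2.add i1).const_mul (10 * M ^ 2 + 1)) ?_
  filter_upwards [hp, h.grad, ae_restrict_mem measurableSet_Ioo] with t ht hG htI p hpW hpM
  have hW : (u t, G t) ∈ graphW Ω := mem_graphW.mpr hG
  have hut := hM t (Ioo_subset_Icc_self htI)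
  have hbt := hb0 t
  have hgt := hg0 t
  have h2 : ‖u t‖ ^ 2 ≤ M ^ 2 := pow_le_pow_left₀ (norm_nonneg _) hut 2
  have h3 : ‖p.1‖ ^ 2 ≤ M ^ 2 := pow_le_pow_left₀ (norm_nonneg _) hpM 2
  have h5 : 0 ≤ ‖G t‖ ^ 2 + ‖p.2‖ ^ 2 := by positivity
  have hgen : ∀ a' b' : ℝ, 0 ≤ b' → a' ≤ 2 * (C / Real.log 2 ^ 2) + (4 * C + 1) →
      b' ≤ 5 * (b t + g t ^ 2) →
      (∀ r ∈ graphW Ω, |⟪tensL r.1, G t⟫_ℝ| ≤ a' * ‖r.2‖ ^ 2 + b' * ‖r.1‖ ^ 2) →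
      |⟪tensL (u t), p.2⟫_ℝ| ≤ (2 * (C / Real.log 2 ^ 2) + (4 * C + 1)) * (‖G t‖ ^ 2 + ‖p.2‖ ^ 2)
        + (10 * M ^ 2 + 1) * (b t + g t ^ 2) := by
    intro a' b' hb' ha hbb hf
    have h1 := polar hΩ.measurableSet (a := a') (b := b') hW hpW hf
    simp only at h1
    have h4 : b' * (‖u t‖ ^ 2 + ‖p.1‖ ^ 2) ≤ 5 * (b t + g t ^ 2) * (M ^ 2 + M ^ 2) := by
      have h6 : 0 ≤ ‖u t‖ ^ 2 + ‖p.1‖ ^ 2 := by positivity
      calc b' * (‖u t‖ ^ 2 + ‖p.1‖ ^ 2) ≤ 5 * (b t + g t ^ 2) * (‖u t‖ ^ 2 + ‖p.1‖ ^ 2) := by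
            gcongr
        _ ≤ _ := by gcongr
    have h6 : a' * (‖G t‖ ^ 2 + ‖p.2‖ ^ 2)
        ≤ (2 * (C / Real.log 2 ^ 2) + (4 * C + 1)) * (‖G t‖ ^ 2 + ‖p.2‖ ^ 2) := by gcongr
    have h7 : 0 ≤ b t + g t ^ 2 := by positivity
    nlinarith
  have hpair : (PairBd C (b t) (Pool.Agent.TH340.FF.ext Ω (u t)) ∨
      PairBd C (b t) fun x => -Pool.Agent.TH340.FF.ext Ω (u t) x) →
      |⟪tensL (u t), p.2⟫_ℝ| ≤ (2 * (C / Real.log 2 ^ 2) + (4 * C + 1)) * (‖G t‖ ^ 2 + ‖p.2‖ ^ 2)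
        + (10 * M ^ 2 + 1) * (b t + g t ^ 2) := by
    intro hq
    have hsq : 0 ≤ g t ^ 2 := sq_nonneg _
    exact hgen (2 * (C / Real.log 2 ^ 2)) (5 * b t) (by positivity) (by linarith) (by linarith)
      fun r hr => formAbs hΩ.measurableSet hbd hC hbt hW hq hr
  rcases ht with ht | ht | ht | ht
  · have hsq : 0 ≤ g t ^ 2 := sq_nonneg _
    have hlog : 0 ≤ 2 * (C / Real.log 2 ^ 2) := by positivity
    exact hgen (4 * C + 1) (3 * b t + g t ^ 2) (by positivity) (by linarith) (by linarith)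
      fun r hr => form_abs hΩ hC hgt hbt hW ht hr
  · exact hpair (Or.inl ht)
  · exact hpair (Or.inr ht)
  · have h1 := enorm_tensL hΩ.measurableSet hW
    have h2 : ‖tensL (u t)‖ ^ 2 ≤ b t := by
      have h3 : ‖tensL (u t)‖ₑ ^ 2 ≤ ENNReal.ofReal (b t) := by
        rw [h1, ← pow_mul]
        exact ht
      rw [← ofReal_norm, ← ENNReal.ofReal_pow (norm_nonneg _)] at h3
      exact (ENNReal.ofReal_le_ofReal_iff hbt).1 h3
    have h4 := abs_real_inner_le_norm (tensL (u t)) p.2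
    have h5 : ‖tensL (u t)‖ * ‖p.2‖ ≤ (‖tensL (u t)‖ ^ 2 + ‖p.2‖ ^ 2) / 2 := by
      nlinarith [sq_nonneg (‖tensL (u t)‖ - ‖p.2‖)]
    have h6 : 0 ≤ 2 * (C / Real.log 2 ^ 2) := by positivity
    have h7 : 0 ≤ ‖G t‖ ^ 2 := by positivity
    have h8 : 0 ≤ ‖p.2‖ ^ 2 := by positivity
    have h9 : 0 ≤ M ^ 2 := by positivity
    have h10 : 0 ≤ 2 * (C / Real.log 2 ^ 2) * (‖G t‖ ^ 2 + ‖p.2‖ ^ 2) := by positivity
    have h12 : 0 ≤ C * (‖G t‖ ^ 2 + ‖p.2‖ ^ 2) := by positivity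
    have h13 : 0 ≤ g t ^ 2 := sq_nonneg _
    have h11 : 0 ≤ 10 * M ^ 2 * (b t + g t ^ 2) := by positivity
    nlinarith

end Pool.Agent.X96.HW
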