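import Pool.Agent.X96.HW.Avg

/-!
Explicit Hardy weights: `1 / (4 d²)` in convex sets, and domains with exterior density.
-/

set_option autoImplicit false

open MeasureTheory Set Filter Topology
open scoped InnerProductSpace ENNReal ContDiff

namespace Pool.Agent.X96.HW

variable {E : Type*} [NormedAddCommGroup E] [InnerProductSpace ℝ E]
variable [MeasurableSpace E] [BorelSpace E] [FiniteDimensional ℝ E]

theorem wdir_ge_R {Ω : Set E} (hΩ : IsOpen Ω) (hb : Bornology.IsBounded Ω) {x e : E} (hx : x ∈ Ω)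
    {s : ℝ} (hs : 0 ≤ s) (h : x + s • e ∉ Ω) : (1 / s) ^ 2 ≤ wdir Ω x e := by
  have he : e ≠ 0 := by
    rintro rfl
    apply h
    simpa using hx
  have h1 := exit_pos hΩ hb he hx
  have h2 := exit_le hs h
  have h3 : 0 ≤ 1 / exitDist Ω x (-e) := by have := exit_nn Ω x (-e); positivity
  have h4 : 1 / s ≤ 1 / exitDist Ω x e := one_div_le_one_div_of_le h1 h2
  unfold wdir
  exact pow_le_pow_left₀ (by positivity) (by linarith) 2

theorem wdir_ge_L {Ω : Set E} (hΩ : IsOpen Ω) (hb : Bornology.IsBounded Ω) {x e : E} (hx : x ∈ Ω)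
    {s : ℝ} (hs : 0 ≤ s) (h : x + s • (-e) ∉ Ω) : (1 / s) ^ 2 ≤ wdir Ω x e := by
  refine (wdir_ge_R hΩ hb hx hs h).trans (le_of_eq ?_)
  unfold wdir
  rw [neg_neg, add_comm]

theorem sum_sq_dual {ι : Type*} [Fintype ι] (b : OrthonormalBasis ι ℝ E) (f : StrongDual ℝ E) :
    ∑ i, f (b i) ^ 2 = ‖f‖ ^ 2 := by
  have h1 : ‖(InnerProductSpace.toDual ℝ E).symm f‖ = ‖f‖ := LinearIsometryEquiv.norm_map _ _
  rw [← h1, ← b.sum_sq_inner_left]
  refine Finset.sum_congr rfl fun i _ => ?_
  rw [InnerProductSpace.toDual_symm_apply]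

/-- **Convex sets**: `1 / (4 d²)` is a Hardy weight, `d` the distance to the complement. -/
theorem convex_hardy [Nontrivial E] {Ω : Set E} (hΩ : IsOpen Ω) (hb : Bornology.IsBounded Ω)
    (hconv : Convex ℝ Ω) : HardyWeight Ω fun x => 1 / (4 * Metric.infDist x Ωᶜ ^ 2) := by
  set b := stdOrthonormalBasis ℝ E with hbdef
  set μ : Measure E := ∑ i, Measure.dirac (b i) with hμ
  have hfin : IsFiniteMeasure μ := by rw [hμ]; infer_instance
  have hcond : ∀ ξ : E, ∫⁻ e, ENNReal.ofReal (⟪e, ξ⟫_ℝ ^ 2) ∂μ ≤ ENNReal.ofReal (‖ξ‖ ^ 2) := by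
    intro ξ
    rw [hμ, lintegral_finsetSum_measure]
    simp only [lintegral_dirac]
    rw [← ENNReal.ofReal_sum_of_nonneg fun i _ => sq_nonneg _, ← b.sum_sq_inner_right ξ]
  refine (lineWeight_hardy hΩ hb μ hcond).mono hΩ.measurableSet ?_ (fun x _ => by positivity) ?_
  · have h1 : Measurable fun x : E => Metric.infDist x Ωᶜ :=
      (Metric.continuous_infDist_pt _).measurable
    exact measurable_const.div ((h1.pow_const 2).const_mul 4)
  intro x hx
  obtain ⟨e0, he0⟩ := exists_ne (0 : E)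
  have hne : (Ωᶜ).Nonempty := by
    obtain ⟨s, _, h⟩ := leaves hb x he0
    exact ⟨_, h⟩
  obtain ⟨y, hy, hd⟩ := hΩ.isClosed_compl.exists_infDist_eq_dist hne x
  obtain ⟨f, hf⟩ := geometric_hahn_banach_open_point hconv hΩ hy
  set c := f y - f x with hc
  have hc0 : 0 < c := by have := hf x hx; rw [hc]; linarith
  have hcd : c ≤ ‖f‖ * Metric.infDist x Ωᶜ := by
    have h1 : c = f (y - x) := by rw [hc, map_sub]
    rw [h1, hd, dist_comm, dist_eq_norm]
    exact (le_abs_self _).trans (f.le_opNorm _)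
  have hmain : ∀ i, (f (b i) / c) ^ 2 ≤ wdir Ω x (b i) := by
    intro i
    rcases lt_trichotomy (f (b i)) 0 with h | h | h
    · have h1 : 0 ≤ c / (-f (b i)) := div_nonneg hc0.le (by linarith)
      have h2 : x + (c / (-f (b i))) • (-(b i)) ∉ Ω := by
        intro hmem
        have h3 := hf _ hmem
        rw [map_add, map_smul, map_neg, smul_eq_mul, div_mul_cancel₀ _ (by linarith)] at h3
        rw [hc] at h3
        linarith
      refine le_trans (le_of_eq ?_) (wdir_ge_L hΩ hb hx h1 h2)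
      rw [one_div_div]
      ring
    · rw [h]
      simpa using wdir_nn Ω x (b i)
    · have h1 : 0 ≤ c / (f (b i)) := div_nonneg hc0.le h.le
      have h2 : x + (c / (f (b i))) • (b i) ∉ Ω := by
        intro hmem
        have h3 := hf _ hmem
        rw [map_add, map_smul, smul_eq_mul, div_mul_cancel₀ _ h.ne'] at h3
        rw [hc] at h3
        linarith
      refine le_trans (le_of_eq ?_) (wdir_ge_R hΩ hb hx h1 h2)
      rw [one_div_div]
  have e1 : lineWeight Ω μ x = 1 / 4 * ∑ i, wdir Ω x (b i) := by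
    unfold lineWeight
    rw [hμ, integral_finsetSum_measure fun i _ => integrable_dirac enorm_lt_top]
    simp only [integral_dirac]
    rfl
  rw [e1]
  have h5 : ∑ i, (f (b i) / c) ^ 2 ≤ ∑ i, wdir Ω x (b i) := Finset.sum_le_sum fun i _ => hmain i
  have h6 : ∑ i, (f (b i) / c) ^ 2 = ‖f‖ ^ 2 / c ^ 2 := by
    rw [← sum_sq_dual b f, Finset.sum_div]
    exact Finset.sum_congr rfl fun i _ => by rw [div_pow]
  rw [h6] at h5
  have hdpos : 0 < Metric.infDist x Ωᶜ := by
    by_contra hcon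
    push Not at hcon
    have h7 : ‖f‖ * Metric.infDist x Ωᶜ ≤ 0 :=
      mul_nonpos_of_nonneg_of_nonpos (norm_nonneg _) hcon
    linarith
  have h7 : 1 / Metric.infDist x Ωᶜ ^ 2 ≤ ‖f‖ ^ 2 / c ^ 2 := by
    rw [div_le_div_iff₀ (by positivity) (by positivity), one_mul, ← mul_pow]
    exact pow_le_pow_left₀ hc0.le hcd 2
  have h8 : 1 / (4 * Metric.infDist x Ωᶜ ^ 2) = 1 / 4 * (1 / Metric.infDist x Ωᶜ ^ 2) := by
    rw [one_div_mul_one_div]
  rw [h8]
  linarith

/-- **Exterior density**: if `|B(x, ρ) \ Ω| ≥ γ |B(x, ρ)|`, `ρ = ρ(x)`, then `γ / (4 ρ²)` is a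
Hardy weight. -/
theorem density_hardy {Ω : Set E} (hΩ : IsOpen Ω) (hb : Bornology.IsBounded Ω)
    {ρ : E → ℝ} (hρm : Measurable ρ) {γ : ℝ} (hγ : 0 ≤ γ)
    (h : ∀ x ∈ Ω, 0 < ρ x ∧
      ENNReal.ofReal γ * volume (Metric.ball x (ρ x)) ≤ volume (Metric.ball x (ρ x) \ Ω)) :
    HardyWeight Ω fun x => γ / (4 * ρ x ^ 2) := by
  set B : Set E := Metric.ball (0 : E) 1 with hB
  have hB0 : volume B ≠ 0 := (Metric.measure_ball_pos _ _ one_pos).ne'
  have hBt : volume B ≠ ⊤ := measure_ball_lt_top.ne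
  set μ : Measure E := (volume B)⁻¹ • volume.restrict B with hμ
  have hfin : IsFiniteMeasure μ := by
    constructor
    rw [hμ, Measure.smul_apply, Measure.restrict_apply MeasurableSet.univ, univ_inter,
      smul_eq_mul, ENNReal.inv_mul_cancel hB0 hBt]
    exact ENNReal.one_lt_top
  have hcond : ∀ ξ : E, ∫⁻ e, ENNReal.ofReal (⟪e, ξ⟫_ℝ ^ 2) ∂μ ≤ ENNReal.ofReal (‖ξ‖ ^ 2) := by
    intro ξ
    rw [hμ, lintegral_smul_measure]
    have h1 : ∫⁻ e in B, ENNReal.ofReal (⟪e, ξ⟫_ℝ ^ 2)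
        ≤ ∫⁻ _ in B, ENNReal.ofReal (‖ξ‖ ^ 2) := by
      refine setLIntegral_mono' Metric.isOpen_ball.measurableSet fun e he => ?_
      refine ENNReal.ofReal_le_ofReal ?_
      have h2 : ‖e‖ < 1 := by simpa [hB] using he
      have h3 : |⟪e, ξ⟫_ℝ| ≤ ‖ξ‖ := by
        refine (abs_real_inner_le_norm e ξ).trans ?_
        nlinarith [norm_nonneg ξ, norm_nonneg e]
      rw [← sq_abs]
      exact pow_le_pow_left₀ (abs_nonneg _) h3 2
    rw [lintegral_const, Measure.restrict_apply MeasurableSet.univ, univ_inter] at h1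
    calc (volume B)⁻¹ • ∫⁻ e in B, ENNReal.ofReal (⟪e, ξ⟫_ℝ ^ 2)
        ≤ (volume B)⁻¹ * (ENNReal.ofReal (‖ξ‖ ^ 2) * volume B) := by
          rw [smul_eq_mul]
          gcongr
      _ = ENNReal.ofReal (‖ξ‖ ^ 2) * ((volume B)⁻¹ * volume B) := by ring
      _ = ENNReal.ofReal (‖ξ‖ ^ 2) := by rw [ENNReal.inv_mul_cancel hB0 hBt, mul_one]
  refine (lineWeight_hardy hΩ hb μ hcond).mono hΩ.measurableSet ?_ (fun x _ => by positivity) ?_
  · exact measurable_const.div ((hρm.pow_const 2).const_mul 4)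
  intro x hx
  obtain ⟨hρ, hden⟩ := h x hx
  set r := ρ x with hr
  set A : Set E := Metric.ball x r \ Ω with hA
  set T : E → E := fun e => x + r • e with hT
  have hvol : ∀ C : Set E, volume (T ⁻¹' C)
      = ENNReal.ofReal |(r ^ Module.finrank ℝ E)⁻¹| * volume C := by
    intro C
    have e1 : T ⁻¹' C = (fun e : E => r • e) ⁻¹' ((fun y => x + y) ⁻¹' C) := rfl
    rw [e1, Measure.addHaar_preimage_smul _ hρ.ne', measure_preimage_add]
  have hTB : T ⁻¹' Metric.ball x r = B := by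
    ext e
    simp only [hT, hB, mem_preimage, Metric.mem_ball, dist_eq_norm, add_sub_cancel_left, sub_zero,
      norm_smul, Real.norm_of_nonneg hρ.le]
    constructor
    · intro h1
      by_contra hcon
      push Not at hcon
      nlinarith
    · intro h1
      nlinarith
  set S : Set E := T ⁻¹' A with hS
  have hSB : S ⊆ B := by
    rw [← hTB]
    exact preimage_mono sdiff_subset
  have hcT : Continuous T := by fun_prop
  have hSm : MeasurableSet S :=
    (Metric.isOpen_ball.measurableSet.diff hΩ.measurableSet).preimage hcT.measurable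
  have h1 : ENNReal.ofReal γ * volume B ≤ volume S := by
    rw [hS, hvol, ← hTB, hvol]
    calc ENNReal.ofReal γ * (ENNReal.ofReal |(r ^ Module.finrank ℝ E)⁻¹| *
          volume (Metric.ball x r))
        = ENNReal.ofReal |(r ^ Module.finrank ℝ E)⁻¹| *
          (ENNReal.ofReal γ * volume (Metric.ball x r)) := by ring
      _ ≤ ENNReal.ofReal |(r ^ Module.finrank ℝ E)⁻¹| * volume A := by gcongr
  have hμS : ENNReal.ofReal γ ≤ μ S := by
    rw [hμ, Measure.smul_apply, Measure.restrict_apply hSm, inter_eq_self_of_subset_left hSB,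
      smul_eq_mul]
    calc ENNReal.ofReal γ = (volume B)⁻¹ * (ENNReal.ofReal γ * volume B) := by
          rw [mul_comm (ENNReal.ofReal γ), ← mul_assoc, ENNReal.inv_mul_cancel hB0 hBt, one_mul]
      _ ≤ (volume B)⁻¹ * volume S := by gcongr
  have hγS : γ ≤ μ.real S := by
    rw [Measure.real]
    exact (ENNReal.ofReal_le_iff_le_toReal (measure_ne_top μ S)).1 hμS
  -- the integral
  obtain ⟨δ, hδ, hball⟩ := Metric.isOpen_iff.1 hΩ x hx
  have hwm : Measurable fun e => wdir Ω x e :=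
    (wdir_meas hΩ hb).comp (g := fun z : E × E => wdir Ω z.1 z.2) (f := fun e : E => (x, e))
      measurable_prodMk_left
  have hae : ∀ᵐ e ∂μ, e ∈ B := by
    rw [hμ]
    exact Measure.ae_smul_measure (ae_restrict_mem Metric.isOpen_ball.measurableSet) _
  have hint : Integrable (fun e => wdir Ω x e) μ := by
    refine Integrable.mono' (integrable_const ((2 / δ) ^ 2)) hwm.aestronglyMeasurable ?_
    filter_upwards [hae] with e he
    rw [Real.norm_of_nonneg (wdir_nn Ω x e)]
    by_cases he0 : e = 0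
    · unfold wdir
      rw [he0, neg_zero, exit_zero]
      have h3 : (0 : ℝ) ≤ (2 / δ) ^ 2 := by positivity
      refine le_trans (le_of_eq ?_) h3
      norm_num
    · refine (wdir_le hb he0 hδ hball).trans (pow_le_pow_left₀ (by positivity) ?_ 2)
      have h2 : ‖e‖ < 1 := by simpa [hB] using he
      gcongr
      linarith
  have h4 : (1 / r) ^ 2 * μ.real S ≤ ∫ e, wdir Ω x e ∂μ := by
    calc (1 / r) ^ 2 * μ.real S = ∫ e, S.indicator (fun _ => (1 / r) ^ 2) e ∂μ := by
          rw [integral_indicator_const _ hSm, smul_eq_mul, mul_comm]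
      _ ≤ ∫ e, wdir Ω x e ∂μ := by
          refine integral_mono ((integrable_const _).indicator hSm) hint fun e => ?_
          by_cases he : e ∈ S
          · rw [indicator_of_mem he]
            have h5 : x + r • e ∉ Ω := he.2
            exact wdir_ge_R hΩ hb hx hρ.le h5
          · rw [indicator_of_notMem he]
            exact wdir_nn Ω x e
  have h5 : lineWeight Ω μ x = 1 / 4 * ∫ e, wdir Ω x e ∂μ := rfl
  rw [h5]
  have h6 : (1 / r) ^ 2 * γ ≤ (1 / r) ^ 2 * μ.real S := by gcongr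
  have h7 : γ / (4 * r ^ 2) = 1 / 4 * ((1 / r) ^ 2 * γ) := by
    field_simp
  rw [h7]
  linarith

end Pool.Agent.X96.HW
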