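import Pool.Agent.X96.HW.Main
import Pool.Agent.X96.HW.Ex
import Pool.Agent.X96.HW.Cen

/-!
The explicit form of the criterion, and the Hardy weights in `ℝ³` (public form).
-/

set_option autoImplicit false

open MeasureTheory Set Filter Topology
open scoped InnerProductSpace ENNReal ContDiff

namespace Pool.Agent.X96.HW

open H772R2.NS.Pub Pool.Agent.W795.TQ

theorem explicit {Ω : Set R3} {ν τ : ℝ} (hν : 0 < ν) (hτ : 0 < τ) {u : ℝ → L2 Ω R3}
    (H : ∀ κ κ' θ : ℝ, 0 ≤ κ → 0 ≤ κ' → 0 < θ → κ + κ' + θ < 1 → ∀ s ∈ Ico 0 τ, ∃ M : ℝ,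
        ∀ g l : ℝ → ℝ, (∀ t, 0 ≤ g t) → (∀ t, 0 ≤ l t) →
        (∀ t ∈ Ioo s τ, IntervalIntegrable (fun r => g r ^ 2) volume s t) →
        (∀ t ∈ Ioo s τ, IntervalIntegrable l volume s t) →
        (∀ᵐ t ∂(volume.restrict (Ioo s τ)), Split Ω ν κ κ' (g t) (l t) (u t).fn) →
        ∀ t0 < τ, ∃ t ∈ Ioo t0 τ, s < t ∧
          3 / 4 * Real.log (1 / (τ - t)) - M ≤ ∫ r in s..t, (l r + g r ^ 2 / (4 * θ * ν)))
    {κ κ' b c t1 : ℝ} (hκ : 0 ≤ κ) (hκ' : 0 ≤ κ') (hb : 0 ≤ b) (hc : 0 ≤ c) (hsum : κ + κ' < 1)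
    (hbc : c + b ^ 2 / (4 * (1 - κ - κ')) < 3 / 4) (ht1 : t1 < τ)
    (hyp : ∀ᵐ t ∂(volume.restrict (Ioo t1 τ)),
      Split Ω ν κ κ' (b * Real.sqrt (ν / (τ - t))) (c / (τ - t)) (u t).fn) : False := by
  set m := 1 - κ - κ' with hm
  have hm0 : 0 < m := by rw [hm]; linarith
  have hc34 : 0 < 3 / 4 - c := by
    have : 0 ≤ b ^ 2 / (4 * m) := by positivity
    linarith
  set θ0 := b ^ 2 / (4 * (3 / 4 - c)) with hθ0
  have hθ00 : 0 ≤ θ0 := by positivity
  have hθ0m : θ0 < m := by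
    rw [hθ0, div_lt_iff₀ (by positivity)]
    have h1 : b ^ 2 / (4 * m) < 3 / 4 - c := by linarith
    rw [div_lt_iff₀ (by positivity)] at h1
    linarith
  set θ := (m + θ0) / 2 with hθ
  have hθp : 0 < θ := by rw [hθ]; linarith
  have hθlt : θ0 < θ := by rw [hθ]; linarith
  have hθm : κ + κ' + θ < 1 := by
    have : θ < m := by rw [hθ]; linarith
    rw [hm] at this
    linarith
  set γ := c + b ^ 2 / (4 * θ) with hγ
  have hγ0 : 0 ≤ γ := by positivity
  have hγ1 : γ < 3 / 4 := by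
    have h1 : b ^ 2 = θ0 * (4 * (3 / 4 - c)) := by
      rw [hθ0, div_mul_cancel₀ _ (by positivity)]
    have h2 : b ^ 2 / (4 * θ) < 3 / 4 - c := by
      rw [div_lt_iff₀ (by positivity), h1]
      nlinarith
    rw [hγ]
    linarith
  set s := max t1 0 with hs
  have hsτ : s < τ := max_lt ht1 hτ
  have hs0 : 0 ≤ s := le_max_right _ _
  obtain ⟨M, hM⟩ := H κ κ' θ hκ hκ' hθp hθm s ⟨hs0, hsτ⟩
  set g : ℝ → ℝ := fun t => b * Real.sqrt (ν / |τ - t|) with hg
  set l : ℝ → ℝ := fun t => c / |τ - t| with hl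
  set β : ℝ → ℝ := fun t => γ / |τ - t| with hβ
  have hcont : ∀ k : ℝ, ∀ t ∈ Ioo s τ, ContinuousOn (fun t => k / |τ - t|) (uIcc s t) := by
    intro k t ht
    rw [uIcc_of_le ht.1.le]
    refine continuousOn_const.div (continuous_const.sub continuous_id).abs.continuousOn
      fun r hr => ?_
    have : 0 < τ - r := by linarith [hr.2, ht.2]
    exact abs_ne_zero.2 this.ne'
  have hg2 : ∀ t, g t ^ 2 = (b ^ 2 * ν) / |τ - t| := by
    intro t
    simp only [hg]
    rw [mul_pow, Real.sq_sqrt (by positivity)]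
    ring
  have h1 := hM g l (fun t => by simp only [hg]; positivity) (fun t => by simp only [hl]; positivity)
    (fun t ht => by
      simp only [hg2]
      exact (hcont _ t ht).intervalIntegrable)
    (fun t ht => (hcont c t ht).intervalIntegrable) (by
      have h2 : ∀ᵐ t ∂(volume.restrict (Ioo s τ)),
          Split Ω ν κ κ' (b * Real.sqrt (ν / (τ - t))) (c / (τ - t)) (u t).fn :=
        ae_mono (Measure.restrict_mono (Ioo_subset_Ioo_left (le_max_left _ _)) le_rfl) hyp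
      filter_upwards [h2, ae_restrict_mem measurableSet_Ioo] with t ht htI
      have hp : 0 < τ - t := by linarith [htI.2]
      simp only [hg, hl]
      rw [abs_of_pos hp]
      exact ht)
  have hfun : ∀ r, l r + g r ^ 2 / (4 * θ * ν) = β r := by
    intro r
    rw [hg2]
    simp only [hl, hβ, hγ]
    by_cases hr : |τ - r| = 0
    · rw [hr]
      simp
    · field_simp
  simp only [hfun] at h1
  have hβc : ∀ t ∈ Ioo s τ, ContinuousOn β (uIcc s t) := fun t ht => hcont γ t ht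
  -- the integral of `β`
  have hint : ∀ t ∈ Ioo s τ, ∫ r in s..t, β r
      = γ * (Real.log (1 / (τ - t)) - Real.log (1 / (τ - s))) := by
    intro t ht
    have hder : ∀ r ∈ uIcc s t, HasDerivAt (fun r => γ * Real.log (1 / (τ - r))) (β r) r := by
      intro r hr
      rw [uIcc_of_le ht.1.le] at hr
      have hp : 0 < τ - r := by linarith [hr.2, ht.2]
      have e1 : (fun r => γ * Real.log (1 / (τ - r))) = fun r => γ * -Real.log (τ - r) := by
        funext r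
        rw [one_div, Real.log_inv]
      rw [e1]
      refine (((((hasDerivAt_id r).const_sub τ).log hp.ne').neg).const_mul γ).congr_deriv ?_
      simp only [hβ]
      rw [abs_of_pos hp]
      simp only [id]
      ring
    rw [intervalIntegral.integral_eq_sub_of_hasDerivAt hder (hβc t ht).intervalIntegrable]
    ring
  -- a time at which the logarithm is large
  set A := (|M| + γ * |Real.log (1 / (τ - s))| + 1) / (3 / 4 - γ) with hA
  have hgp : 0 < 3 / 4 - γ := by linarith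
  obtain ⟨t, ht, hst, hle⟩ := h1 (τ - Real.exp (-A)) (by linarith [Real.exp_pos (-A)])
  rw [hint t ⟨hst, ht.2⟩] at hle
  have hp : 0 < τ - t := by linarith [ht.2]
  have h3 : A < Real.log (1 / (τ - t)) := by
    rw [one_div, Real.log_inv, lt_neg, Real.log_lt_iff_lt_exp hp]
    linarith [ht.1]
  have h4 : (3 / 4 - γ) * A = |M| + γ * |Real.log (1 / (τ - s))| + 1 := by
    rw [hA, mul_comm, div_mul_cancel₀ _ hgp.ne']
  have h5 : (3 / 4 - γ) * A < (3 / 4 - γ) * Real.log (1 / (τ - t)) :=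
    mul_lt_mul_of_pos_left h3 hgp
  have h6 := le_abs_self M
  have h7 : -(γ * Real.log (1 / (τ - s))) ≤ γ * |Real.log (1 / (τ - s))| := by
    rw [← mul_neg]
    exact mul_le_mul_of_nonneg_left (neg_le_abs _) hγ0
  nlinarith

/-! ### The weights in `R3` -/

theorem pub_line {Ω : Set R3} (hΩ : IsOpen Ω) (hb : Bornology.IsBounded Ω) (μ : Measure R3)
    (hs : SFinite μ)
    (hμ : ∀ ξ : R3, ∫⁻ e, ENNReal.ofReal (⟪e, ξ⟫_ℝ ^ 2) ∂μ ≤ ENNReal.ofReal (‖ξ‖ ^ 2)) :
    HardyWeight Ω (lineWeight Ω μ) :=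
  @lineWeight_hardy H772R2.NS.E3 _ _ _ _ _ (show Set H772R2.NS.E3 from Ω) hΩ hb μ hs hμ

theorem pub_convex {Ω : Set R3} (hΩ : IsOpen Ω) (hb : Bornology.IsBounded Ω) (hc : Convex ℝ Ω) :
    HardyWeight Ω fun x => 1 / (4 * Metric.infDist x Ωᶜ ^ 2) :=
  @convex_hardy H772R2.NS.E3 _ _ _ _ _ _ (show Set H772R2.NS.E3 from Ω) hΩ hb hc

theorem pub_density {Ω : Set R3} (hΩ : IsOpen Ω) (hb : Bornology.IsBounded Ω)
    (ρ : R3 → ℝ) (hρm : Measurable ρ) (γ : ℝ) (hγ : 0 ≤ γ)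
    (h : ∀ x ∈ Ω, 0 < ρ x ∧
      ENNReal.ofReal γ * volume (Metric.ball x (ρ x)) ≤ volume (Metric.ball x (ρ x) \ Ω)) :
    HardyWeight Ω fun x => γ / (4 * ρ x ^ 2) :=
  @density_hardy H772R2.NS.E3 _ _ _ _ _ (show Set H772R2.NS.E3 from Ω) hΩ hb ρ hρm γ hγ h

theorem pub_center (Ω : Set R3) (z : R3) : HardyWeight Ω fun x => 1 / (4 * ‖x - z‖ ^ 2) :=
  center_hardy (show Set H772R2.NS.E3 from Ω) z

theorem pub_comb {Ω : Set R3} (hΩ : IsOpen Ω) {W W' : R3 → ℝ} (h : HardyWeight Ω W)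
    (h' : HardyWeight Ω W') {θ : ℝ} (h0 : 0 ≤ θ) (h1 : θ ≤ 1) :
    HardyWeight Ω fun x => θ * W x + (1 - θ) * W' x :=
  HardyWeight.comb (E := H772R2.NS.E3) (Ω := (show Set H772R2.NS.E3 from Ω))
    (IsOpen.measurableSet (α := H772R2.NS.E3) hΩ) h h' h0 h1
    fun _ hc => Continuous.measurable hc

end Pool.Agent.X96.HW
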