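import Pool.Agent.X96.HW.Wt
import Pool.Agent.TH340.FF.LH2

/-!
The form inequality from a Hardy weight.
-/

set_option autoImplicit false

open MeasureTheory Set Filter Topology
open scoped InnerProductSpace ENNReal ContDiff

namespace Pool.Agent.X96.HW

open H772R2.NS Pool.Agent.TH340.FF

/-- `D` is the weak derivative of the locally integrable field `a` in `Ω`. -/
structure WeakDeriv {E : Type*} [NormedAddCommGroup E] [InnerProductSpace ℝ E] [MeasureSpace E]
    (Ω : Set E) (a : E → E) (D : E → E →L[ℝ] E) : Prop where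
  int : LocallyIntegrableOn a Ω
  int' : LocallyIntegrableOn D Ω
  eq : ∀ η : E → ℝ, ContDiff ℝ ∞ η → HasCompactSupport η → tsupport η ⊆ Ω → ∀ v w : E,
    ∫ x in Ω, ⟪w, a x⟫_ℝ * fderiv ℝ η x v = -∫ x in Ω, ⟪w, D x v⟫_ℝ * η x

/-- The condition on the velocity `U` at a fixed time: `U = a + (U - a)` with
`|U - a| ≤ κ ν √W + g` and with the strain of `a` at least `-(κ' ν W + l)`. -/
def Split {E : Type*} [NormedAddCommGroup E] [InnerProductSpace ℝ E] [MeasureSpace E]
    (Ω : Set E) (ν κ κ' g l : ℝ) (U : E → E) : Prop :=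
  ∃ (W : E → ℝ) (a : E → E) (D : E → E →L[ℝ] E), HardyWeight Ω W ∧ WeakDeriv Ω a D ∧
    (∀ᵐ x ∂(volume.restrict Ω), ‖U x - a x‖ ≤ κ * ν * Real.sqrt (W x) + g) ∧
    ∀ᵐ x ∂(volume.restrict Ω), ∀ ξ : E, -⟪ξ, D x ξ⟫_ℝ ≤ (κ' * ν * W x + l) * ‖ξ‖ ^ 2

variable {Ω : Set E3} {φ : E3 → E3}

theorem expand_E3 (D : E3 →L[ℝ] E3) (ξ : E3) :
    ⟪ξ, D ξ⟫_ℝ = ∑ i, ∑ j, ⟪ev i, D (ev j)⟫_ℝ * (ξ i * ξ j) := by
  have h1 : ξ = ∑ j, ξ j • ev j := by
    ext k
    fin_cases k <;> simp [Fin.sum_univ_three]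
  have h2 : D ξ = ∑ j, ξ j • D (ev j) := by
    conv_lhs => rw [h1]
    simp [map_sum, map_smul]
  rw [inner_E3, h2]
  simp only [Fin.sum_univ_three, PiLp.add_apply, PiLp.smul_apply, smul_eq_mul,
    EuclideanSpace.inner_single_left, map_one, one_mul]
  ring

theorem norm_f1_le (φ : E3 → E3) (x : E3) : ‖f1 φ x‖ ≤ ‖φ x‖ * ‖jac φ x‖ := by
  have h1 : ‖f1 φ x‖ ^ 2 ≤ (‖φ x‖ * ‖jac φ x‖) ^ 2 := by
    rw [mul_pow, norm_sq_E3, norm_sq_E3]
    have e2 : ‖jac φ x‖ ^ 2 = ∑ i, ∑ j, jac φ x (i, j) ^ 2 := by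
      rw [← real_inner_self_eq_norm_sq, inner_M3]
      exact Finset.sum_congr rfl fun i _ => Finset.sum_congr rfl fun j _ => by ring
    rw [e2, Finset.mul_sum]
    refine Finset.sum_le_sum fun i _ => ?_
    show (∑ j, φ x j * jac φ x (i, j)) ^ 2 ≤ _
    exact Finset.sum_mul_sq_le_sq_mul_sq _ _ _
  exact le_of_pow_le_pow_left₀ (by norm_num) (by positivity) h1

/-- the Hardy inequality for vector fields -/
theorem hardy_vec (hΩ : MeasurableSet Ω) {W : E3 → ℝ} (hW : HardyWeight Ω W) (h : IsTest Ω φ) :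
    IntegrableOn (fun x => W x * ‖φ x‖ ^ 2) Ω ∧
    ∫ x in Ω, W x * ‖φ x‖ ^ 2 ≤ ∫ x, ∑ i, ∑ j, jac φ x (i, j) ^ 2 := by
  have hci : ∀ i, ContDiff ℝ ∞ fun x => φ x i := fun i => contDiff_coord h.smooth i
  have hcc : ∀ i, HasCompactSupport fun x => φ x i := fun i => hasCompactSupport_coord h.compact i
  have hcs : ∀ i, tsupport (fun x => φ x i) ⊆ Ω := fun i => by
    refine (closure_mono ?_).trans h.supp
    intro x hx h0
    apply hx
    have : φ x = 0 := h0
    show φ x i = 0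
    rw [this]
    rfl
  have hnn : ∀ᵐ x ∂(volume.restrict Ω), 0 ≤ W x := (ae_restrict_mem hΩ).mono hW.2.1
  have iF : ∀ i j, Integrable fun x => jac φ x (i, j) ^ 2 := fun i j => by
    have c1 : Continuous fun x => jac φ x (i, j) ^ 2 := (cont_jac_coord h.smooth i j).pow 2
    exact c1.integrable_of_hasCompactSupport
      ((hcs_jac_coord h.smooth h.compact i j).comp_left (g := fun y : ℝ => y ^ 2) (by simp))
  have hgr : ∀ i, ∫ x, ‖fderiv ℝ (fun x => φ x i) x‖ ^ 2 = ∫ x, ∑ j, jac φ x (i, j) ^ 2 := by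
    intro i
    refine integral_congr_ae (Eventually.of_forall fun x => ?_)
    simp only
    obtain ⟨ξ, h1, h2⟩ := fderiv_eq_inner (fun x => φ x i) x 0
    rw [← h1, norm_sq_E3]
    refine Finset.sum_congr rfl fun j _ => ?_
    rw [jac_eq_coord h.smooth, h2]
    simp [EuclideanSpace.inner_single_left]
  have key : ∀ i, IntegrableOn (fun x => W x * φ x i ^ 2) Ω ∧
      ∫ x in Ω, W x * φ x i ^ 2 ≤ ∫ x, ∑ j, jac φ x (i, j) ^ 2 := by
    intro i
    have h1 := hW.2.2 _ (hci i) (hcc i) (hcs i)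
    rw [hgr i] at h1
    have hm : Measurable fun x => W x * φ x i ^ 2 :=
      hW.1.mul ((hci i).continuous.measurable.pow_const 2)
    have hnn2 : ∀ᵐ x ∂(volume.restrict Ω), 0 ≤ W x * φ x i ^ 2 := by
      filter_upwards [hnn] with x hx
      positivity
    have h2 : IntegrableOn (fun x => W x * φ x i ^ 2) Ω := by
      refine ⟨hm.aestronglyMeasurable, ?_⟩
      rw [hasFiniteIntegral_iff_ofReal hnn2]
      exact lt_of_le_of_lt h1 ENNReal.ofReal_lt_top
    refine ⟨h2, ?_⟩
    rw [← ofReal_integral_eq_lintegral_ofReal h2 hnn2] at h1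
    exact (ENNReal.ofReal_le_ofReal_iff (integral_nonneg fun x => by positivity)).1 h1
  have e1 : (fun x => W x * ‖φ x‖ ^ 2) = fun x => ∑ i, W x * φ x i ^ 2 := by
    funext x
    rw [norm_sq_E3, Finset.mul_sum]
  rw [e1]
  refine ⟨integrable_finsetSum _ fun i _ => (key i).1, ?_⟩
  rw [integral_finsetSum _ fun i _ => (key i).1,
    integral_finsetSum _ fun i _ => integrable_finsetSum _ fun j _ => iF i j]
  exact Finset.sum_le_sum fun i _ => (key i).2

theorem loc_mul {F : Type*} [NormedAddCommGroup F] (hΩ : IsOpen Ω) {f : E3 → F}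
    (hf : LocallyIntegrableOn f Ω) {η : E3 → ℝ} (hη : Continuous η)
    (hc : HasCompactSupport η) (hs : tsupport η ⊆ Ω) (L : E3 → F → ℝ)
    (hL : ∀ x y, ‖L x y‖ ≤ |η x| * ‖y‖)
    (hm : AEStronglyMeasurable (fun x => L x (f x)) (volume.restrict Ω)) :
    IntegrableOn (fun x => L x (f x)) Ω := by
  have h1 : IntegrableOn f (tsupport η) := hf.integrableOn_compact_subset hs hc.isCompact
  obtain ⟨M, hM⟩ := hη.bounded_above_of_compact_support hc
  have h2 : IntegrableOn (fun x => (tsupport η).indicator (fun x => M * ‖f x‖) x) Ω := by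
    have h3 : Integrable ((tsupport η).indicator fun x => M * ‖f x‖) :=
      (integrable_indicator_iff (isClosed_tsupport η).measurableSet).2 (h1.norm.const_mul M)
    exact h3.integrableOn
  refine h2.mono' hm (Eventually.of_forall fun x => ?_)
  by_cases hx : x ∈ tsupport η
  · rw [indicator_of_mem hx]
    refine (hL x (f x)).trans ?_
    exact mul_le_mul_of_nonneg_right (hM x) (norm_nonneg _)
  · rw [indicator_of_notMem hx]
    refine (hL x (f x)).trans ?_
    rw [image_eq_zero_of_notMem_tsupport hx]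
    simp

/-- `∫ a·(φ·∇)φ = -∫ φ·Dφ` -/
theorem weak_form (hΩ : IsOpen Ω) {a : E3 → E3} {D : E3 → E3 →L[ℝ] E3} (hD : WeakDeriv Ω a D)
    (h : IsTest Ω φ) :
    IntegrableOn (fun x => ⟪a x, f1 φ x⟫_ℝ) Ω ∧ IntegrableOn (fun x => ⟪φ x, D x (φ x)⟫_ℝ) Ω ∧
    ∫ x in Ω, ⟪a x, f1 φ x⟫_ℝ = -∫ x in Ω, ⟪φ x, D x (φ x)⟫_ℝ := by
  have hsm := h.smooth
  have hma : AEStronglyMeasurable a (volume.restrict Ω) :=
    hD.int.aestronglyMeasurable
  have hmD : AEStronglyMeasurable D (volume.restrict Ω) :=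
    hD.int'.aestronglyMeasurable
  have hg : ∀ i j, ContDiff ℝ ∞ fun x => φ x i * φ x j := fun i j =>
    (contDiff_coord hsm i).mul (contDiff_coord hsm j)
  have hgc : ∀ i j, HasCompactSupport fun x => φ x i * φ x j := fun i j =>
    (hasCompactSupport_coord h.compact i).mul_right
  have hgs : ∀ i j, tsupport (fun x => φ x i * φ x j) ⊆ Ω := fun i j => by
    refine (closure_mono ?_).trans h.supp
    intro x hx h0
    apply hx
    have : φ x = 0 := h0
    show φ x i * φ x j = 0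
    rw [this]
    simp
  have e1 : ∀ x, ⟪a x, f1 φ x⟫_ℝ
      = ∑ i, ∑ j, ⟪ev i, a x⟫_ℝ * fderiv ℝ (fun x => φ x i * φ x j) x (ev j) := by
    intro x
    rw [inner_E3]
    refine Finset.sum_congr rfl fun i _ => ?_
    rw [← Finset.mul_sum]
    have e2 : ⟪ev i, a x⟫_ℝ = a x i := by simp [EuclideanSpace.inner_single_left]
    rw [e2]
    congr 1
    simp_rw [fderiv_mul_coord hsm]
    rw [Finset.sum_add_distrib, ← Finset.mul_sum]
    have hd := h.divfree x
    rw [hd, mul_zero, zero_add]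
    rfl
  have i1 : ∀ i j, IntegrableOn
      (fun x => ⟪ev i, a x⟫_ℝ * fderiv ℝ (fun x => φ x i * φ x j) x (ev j)) Ω := by
    intro i j
    have c1 : Continuous fun x => fderiv ℝ (fun x => φ x i * φ x j) x (ev j) :=
      ((hg i j).continuous_fderiv (by simp)).clm_apply continuous_const
    have s1 : HasCompactSupport fun x => fderiv ℝ (fun x => φ x i * φ x j) x (ev j) :=
      ((hgc i j).fderiv (𝕜 := ℝ)).comp_left (g := fun L : E3 →L[ℝ] ℝ => L (ev j)) (by simp)
    have t1 : tsupport (fun x => fderiv ℝ (fun x => φ x i * φ x j) x (ev j)) ⊆ Ω := by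
      refine (closure_mono ?_).trans ((tsupport_fderiv_subset ℝ (f := fun x => φ x i * φ x j)).trans
        (hgs i j))
      intro x hx h0
      apply hx
      show fderiv ℝ (fun x => φ x i * φ x j) x (ev j) = 0
      have : fderiv ℝ (fun x => φ x i * φ x j) x = 0 := h0
      rw [this]
      rfl
    refine loc_mul hΩ hD.int c1 s1 t1
      (fun x y => ⟪ev i, y⟫_ℝ * fderiv ℝ (fun x => φ x i * φ x j) x (ev j)) (fun x y => ?_) ?_
    · rw [norm_mul, mul_comm]
      refine mul_le_mul_of_nonneg_left ?_ (abs_nonneg _)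
      refine (norm_inner_le_norm _ _).trans ?_
      simp
    · exact (aestronglyMeasurable_const.inner hma).mul c1.aestronglyMeasurable
  have i2 : ∀ i j, IntegrableOn (fun x => ⟪ev i, D x (ev j)⟫_ℝ * (φ x i * φ x j)) Ω := by
    intro i j
    refine loc_mul hΩ hD.int' (hg i j).continuous (hgc i j) (hgs i j)
      (fun x L => ⟪ev i, L (ev j)⟫_ℝ * (φ x i * φ x j)) (fun x L => ?_) ?_
    · rw [norm_mul, mul_comm]
      refine mul_le_mul_of_nonneg_left ?_ (abs_nonneg _)
      refine (norm_inner_le_norm _ _).trans ?_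
      have : ‖L (ev j)‖ ≤ ‖L‖ := by
        refine (L.le_opNorm _).trans ?_
        simp
      simpa using this
    · exact (aestronglyMeasurable_const.inner (hmD.apply_continuousLinearMap (ev j))).mul
        (hg i j).continuous.aestronglyMeasurable
  have j1 : IntegrableOn (fun x => ⟪a x, f1 φ x⟫_ℝ) Ω := by
    simp_rw [e1]
    exact integrable_finsetSum _ fun i _ => integrable_finsetSum _ fun j _ => i1 i j
  have j2 : IntegrableOn (fun x => ⟪φ x, D x (φ x)⟫_ℝ) Ω := by
    simp_rw [expand_E3]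
    exact integrable_finsetSum _ fun i _ => integrable_finsetSum _ fun j _ => i2 i j
  refine ⟨j1, j2, ?_⟩
  simp_rw [e1, expand_E3]
  rw [integral_finsetSum _ fun i _ => integrable_finsetSum _ fun j _ => i1 i j,
    integral_finsetSum _ fun i _ => integrable_finsetSum _ fun j _ => i2 i j,
    ← Finset.sum_neg_distrib]
  refine Finset.sum_congr rfl fun i _ => ?_
  rw [integral_finsetSum _ fun j _ => i1 i j, integral_finsetSum _ fun j _ => i2 i j,
    ← Finset.sum_neg_distrib]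
  refine Finset.sum_congr rfl fun j _ => ?_
  exact hD.eq _ (hg i j) (hgc i j) (hgs i j) (ev j) (ev i)

end Pool.Agent.X96.HW
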