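import Pool.Agent.X96.HW.Form

/-!
The form inequality from a Hardy weight, conclusion.
-/

set_option autoImplicit false

open MeasureTheory Set Filter Topology
open scoped InnerProductSpace ENNReal ContDiff

namespace Pool.Agent.X96.HW

open H772R2.NS Pool.Agent.TH340.FF

variable {Ω : Set E3}

/-- the pointwise inequality -/
theorem pointwise {ν κ κ' θ g l w n m r s : ℝ} (hν : 0 < ν) (hκ : 0 ≤ κ) (hθ : 0 < θ)
    (hg : 0 ≤ g) (hw : 0 ≤ w) (hn : 0 ≤ n) (hm : 0 ≤ m) (hr : r ≤ (κ * ν * Real.sqrt w + g) * (n * m))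
    (hs : s ≤ (κ' * ν * w + l) * n ^ 2) :
    r + s ≤ (κ / 2 + κ') * ν * (w * n ^ 2) + (κ / 2 + θ) * ν * m ^ 2
      + (l + g ^ 2 / (4 * θ * ν)) * n ^ 2 := by
  have h1 : Real.sqrt w * (n * m) ≤ 1 / 2 * (w * n ^ 2) + 1 / 2 * m ^ 2 := by
    have h2 : Real.sqrt w ^ 2 = w := Real.sq_sqrt hw
    nlinarith [sq_nonneg (Real.sqrt w * n - m)]
  have h2 : g * (n * m) ≤ θ * ν * m ^ 2 + g ^ 2 / (4 * θ * ν) * n ^ 2 := by
    have h3 : θ * ν * m ^ 2 + g ^ 2 / (4 * θ * ν) * n ^ 2 - g * (n * m)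
        = (2 * θ * ν * m - g * n) ^ 2 / (4 * θ * ν) := by
      field_simp
      ring
    have h4 : 0 ≤ (2 * θ * ν * m - g * n) ^ 2 / (4 * θ * ν) := by positivity
    linarith
  have h3 : κ * ν * (Real.sqrt w * (n * m)) ≤ κ * ν * (1 / 2 * (w * n ^ 2) + 1 / 2 * m ^ 2) := by
    gcongr
  nlinarith

/-- **The form inequality.** -/
theorem form_split (hΩ : IsOpen Ω) {ν κ κ' θ g l : ℝ} (hν : 0 < ν) (hκ : 0 ≤ κ) (hκ' : 0 ≤ κ')
    (hθ : 0 < θ) (hg : 0 ≤ g) {U : L2V Ω} {G : L2M Ω} (hU : (U, G) ∈ graphW Ω)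
    (hs : Split Ω ν κ κ' g l (U : E3 → E3)) {p : L2V Ω × L2M Ω} (hp : p ∈ graphW Ω) :
    -⟪tensL p.1, G⟫_ℝ ≤ (κ + κ' + θ) * ν * ‖p.2‖ ^ 2 + (l + g ^ 2 / (4 * θ * ν)) * ‖p.1‖ ^ 2 := by
  have hm : MeasurableSet Ω := hΩ.measurableSet
  obtain ⟨W, a, D, hW, hD, h1, h2⟩ := hs
  have key := graphW_le (fun p => -⟪tensL p.1, G⟫_ℝ - (κ + κ' + θ) * ν * ‖p.2‖ ^ 2
    - (l + g ^ 2 / (4 * θ * ν)) * ‖p.1‖ ^ 2) (form_cont hm G _ _) (fun q hq => ?_) hp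
  · linarith
  have hqW := preW_le hq
  obtain ⟨φ, t1, t2, t3⟩ := hq
  have t4 := int_f1 hm t1 hqW t2 hU
  obtain ⟨w1, w2, w3⟩ := weak_form hΩ hD t1
  obtain ⟨v1, v2⟩ := hardy_vec hm hW t1
  have n1 := norm_test1 t1 t2
  have n2 := norm_test2 t1 t3
  have hφ0 : ∀ x ∉ Ω, φ x = 0 := fun x hx =>
    image_eq_zero_of_notMem_tsupport fun hc => hx (t1.supp hc)
  have hj0 : ∀ x ∉ Ω, jac φ x = 0 := fun x hx => image_eq_zero_of_notMem_tsupport fun hc =>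
    hx (t1.supp (tsupport_jac_subset hc))
  -- everything on Ω
  have cf1 : Continuous (f1 φ) := f1_cont t1.smooth
  have sf1 : HasCompactSupport (f1 φ) := f1_comp t1.compact
  have e1 : ∫ x, ∑ i, ext Ω U x i * f1 φ x i = ∫ x in Ω, ⟪(U : E3 → E3) x, f1 φ x⟫_ℝ := by
    rw [← integral_indicator hm]
    refine integral_congr_ae (Eventually.of_forall fun x => ?_)
    by_cases hx : x ∈ Ω
    · simp only [Pool.Agent.TH340.FF.ext, indicator_of_mem hx, inner_E3]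
    · simp [Pool.Agent.TH340.FF.ext, indicator_of_notMem hx]
  have cφ : Continuous φ := t1.smooth.continuous
  have i5 : Integrable fun x => ‖φ x‖ ^ 2 := by
    have c1 : Continuous fun x => ‖φ x‖ ^ 2 := cφ.norm.pow 2
    exact c1.integrable_of_hasCompactSupport
      (t1.compact.comp_left (g := fun y : E3 => ‖y‖ ^ 2) (by simp))
  have cj : Continuous fun x => ∑ i, ∑ j, jac φ x (i, j) ^ 2 :=
    continuous_finset_sum _ fun i _ => continuous_finset_sum _ fun j _ =>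
      (cont_jac_coord t1.smooth i j).pow 2
  have ej : ∀ x, ‖jac φ x‖ ^ 2 = ∑ i, ∑ j, jac φ x (i, j) ^ 2 := fun x => by
    rw [← real_inner_self_eq_norm_sq, inner_M3]
    exact Finset.sum_congr rfl fun i _ => Finset.sum_congr rfl fun j _ => by ring
  have i6 : Integrable fun x => ‖jac φ x‖ ^ 2 := by
    simp_rw [ej]
    refine integrable_finsetSum _ fun i _ => integrable_finsetSum _ fun j _ => ?_
    have c1 : Continuous fun x => jac φ x (i, j) ^ 2 := (cont_jac_coord t1.smooth i j).pow 2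
    exact c1.integrable_of_hasCompactSupport
      ((hcs_jac_coord t1.smooth t1.compact i j).comp_left (g := fun y : ℝ => y ^ 2) (by simp))
  have n1' : ‖q.1‖ ^ 2 = ∫ x in Ω, ‖φ x‖ ^ 2 := by
    rw [n1, setIntegral_eq_integral_of_forall_compl_eq_zero (s := Ω) fun x hx => by
      rw [hφ0 x hx]; simp]
    exact integral_congr_ae (Eventually.of_forall fun x => (norm_sq_E3 _).symm)
  have n2' : ‖q.2‖ ^ 2 = ∫ x in Ω, ‖jac φ x‖ ^ 2 := by
    rw [n2, setIntegral_eq_integral_of_forall_compl_eq_zero (s := Ω) fun x hx => by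
      rw [hj0 x hx]; simp]
    exact integral_congr_ae (Eventually.of_forall fun x => (ej x).symm)
  -- integrability of the first term
  have iU : IntegrableOn (fun x => ⟪(U : E3 → E3) x, f1 φ x⟫_ℝ) Ω := by
    have hmf : MemLp (f1 φ) 2 ((volume : Measure E3).restrict Ω) :=
      (cf1.memLp_of_hasCompactSupport sf1).restrict Ω
    refine (L2.integrable_inner (𝕜 := ℝ) U (hmf.toLp _)).congr ?_
    filter_upwards [hmf.coeFn_toLp] with x hx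
    rw [hx]
  have iUa : IntegrableOn (fun x => ⟪(U : E3 → E3) x - a x, f1 φ x⟫_ℝ) Ω := by
    refine (iU.sub w1).congr (Eventually.of_forall fun x => ?_)
    simp only [Pi.sub_apply, inner_sub_left]
  have e2 : ∫ x in Ω, ⟪(U : E3 → E3) x, f1 φ x⟫_ℝ
      = ∫ x in Ω, (⟪(U : E3 → E3) x - a x, f1 φ x⟫_ℝ + -⟪φ x, D x (φ x)⟫_ℝ) := by
    have k1 : IntegrableOn (fun x => -⟪φ x, D x (φ x)⟫_ℝ) Ω := w2.neg
    rw [integral_add iUa k1, integral_neg, ← w3, ← integral_add iUa w1]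
    refine integral_congr_ae (Eventually.of_forall fun x => ?_)
    simp only [inner_sub_left]
    ring
  have b1 : IntegrableOn (fun x => (κ / 2 + κ') * ν * (W x * ‖φ x‖ ^ 2)) Ω := v1.const_mul _
  have b2 : IntegrableOn (fun x => (κ / 2 + θ) * ν * ‖jac φ x‖ ^ 2) Ω :=
    i6.integrableOn.const_mul _
  have b3 : IntegrableOn (fun x => (l + g ^ 2 / (4 * θ * ν)) * ‖φ x‖ ^ 2) Ω :=
    i5.integrableOn.const_mul _
  have b4 : IntegrableOn (fun x => (κ / 2 + κ') * ν * (W x * ‖φ x‖ ^ 2)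
      + (κ / 2 + θ) * ν * ‖jac φ x‖ ^ 2) Ω := b1.add b2
  have iR : IntegrableOn (fun x => (κ / 2 + κ') * ν * (W x * ‖φ x‖ ^ 2)
      + (κ / 2 + θ) * ν * ‖jac φ x‖ ^ 2 + (l + g ^ 2 / (4 * θ * ν)) * ‖φ x‖ ^ 2) Ω :=
    b4.add b3
  have e3 : ∫ x in Ω, (⟪(U : E3 → E3) x - a x, f1 φ x⟫_ℝ + -⟪φ x, D x (φ x)⟫_ℝ)
      ≤ ∫ x in Ω, ((κ / 2 + κ') * ν * (W x * ‖φ x‖ ^ 2)
      + (κ / 2 + θ) * ν * ‖jac φ x‖ ^ 2 + (l + g ^ 2 / (4 * θ * ν)) * ‖φ x‖ ^ 2) := by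
    refine integral_mono_ae (iUa.add w2.neg) iR ?_
    filter_upwards [h1, h2, ae_restrict_mem hm] with x a1 a2 a3
    have hw := hW.2.1 x a3
    refine pointwise hν hκ hθ hg hw (norm_nonneg (φ x)) (norm_nonneg (jac φ x)) ?_ (a2 (φ x))
    refine (real_inner_le_norm _ _).trans ?_
    exact mul_le_mul a1 (norm_f1_le φ x) (norm_nonneg _) (by positivity)
  have e4 : ∫ x in Ω, ((κ / 2 + κ') * ν * (W x * ‖φ x‖ ^ 2)
      + (κ / 2 + θ) * ν * ‖jac φ x‖ ^ 2 + (l + g ^ 2 / (4 * θ * ν)) * ‖φ x‖ ^ 2)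
      = (κ / 2 + κ') * ν * (∫ x in Ω, W x * ‖φ x‖ ^ 2) + (κ / 2 + θ) * ν * ‖q.2‖ ^ 2
        + (l + g ^ 2 / (4 * θ * ν)) * ‖q.1‖ ^ 2 := by
    rw [integral_add b4 b3, integral_add b1 b2,
      integral_const_mul, integral_const_mul, integral_const_mul, n1', n2']
  rw [← n2] at v2
  have e5 : (κ / 2 + κ') * ν * (∫ x in Ω, W x * ‖φ x‖ ^ 2) ≤ (κ / 2 + κ') * ν * ‖q.2‖ ^ 2 := by
    have : 0 ≤ (κ / 2 + κ') * ν := by positivity
    exact mul_le_mul_of_nonneg_left v2 this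
  rw [e1, e2] at t4
  rw [e4] at e3
  show -⟪tensL q.1, G⟫_ℝ - (κ + κ' + θ) * ν * ‖q.2‖ ^ 2
    - (l + g ^ 2 / (4 * θ * ν)) * ‖q.1‖ ^ 2 ≤ 0
  rw [← t4]
  nlinarith

end Pool.Agent.X96.HW
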