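import Pool.Agent.X96.HW.One
import Pool.Agent.TH340.FF.Slice

/-!
Hardy weights from the distances to the complement along lines.
-/

set_option autoImplicit false

open MeasureTheory Set Filter Topology
open scoped InnerProductSpace ENNReal ContDiff

namespace Pool.Agent.X96.HW

/-- The distance from `x` to the complement of `Ω` in the direction `e`, in units of `|e|`. -/
noncomputable def exitDist {E : Type*} [AddCommGroup E] [Module ℝ E] (Ω : Set E) (x e : E) : ℝ :=
  sInf {s : ℝ | 0 ≤ s ∧ x + s • e ∉ Ω}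

section gen

variable {E : Type*} [NormedAddCommGroup E] [InnerProductSpace ℝ E]

theorem exit_nn (Ω : Set E) (x e : E) : 0 ≤ exitDist Ω x e :=
  Real.sInf_nonneg fun _ h => h.1

theorem exit_zero (Ω : Set E) (x : E) : exitDist Ω x 0 = 0 := by
  unfold exitDist
  by_cases hx : x ∈ Ω
  · have : {s : ℝ | 0 ≤ s ∧ x + s • (0 : E) ∉ Ω} = ∅ := by
      ext s
      simp [hx]
    rw [this, Real.sInf_empty]
  · refine le_antisymm (csInf_le ⟨0, fun _ h => h.1⟩ ⟨le_rfl, by simpa using hx⟩)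
      (Real.sInf_nonneg fun _ h => h.1)

/-- a line leaves a bounded set -/
theorem leaves {Ω : Set E} (hb : Bornology.IsBounded Ω) (x : E) {e : E} (he : e ≠ 0) :
    ∃ s : ℝ, 0 ≤ s ∧ x + s • e ∉ Ω := by
  obtain ⟨R, hR⟩ := hb.exists_norm_le
  have hn : 0 < ‖e‖ := norm_pos_iff.2 he
  refine ⟨(|R| + ‖x‖ + 1) / ‖e‖, by positivity, fun h => ?_⟩
  have h1 := hR _ h
  have h2 : ‖((|R| + ‖x‖ + 1) / ‖e‖) • e‖ = |R| + ‖x‖ + 1 := by
    rw [norm_smul, Real.norm_of_nonneg (by positivity), div_mul_cancel₀ _ hn.ne']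
  have h3 : ‖((|R| + ‖x‖ + 1) / ‖e‖) • e‖ ≤ ‖x + ((|R| + ‖x‖ + 1) / ‖e‖) • e‖ + ‖x‖ := by
    have := norm_sub_le (x + ((|R| + ‖x‖ + 1) / ‖e‖) • e) x
    rwa [add_sub_cancel_left] at this
  have := le_abs_self R
  linarith

theorem exit_le {Ω : Set E} {x e : E} {s : ℝ} (hs : 0 ≤ s) (h : x + s • e ∉ Ω) :
    exitDist Ω x e ≤ s := csInf_le ⟨0, fun _ h => h.1⟩ ⟨hs, h⟩

theorem exit_ge {Ω : Set E} (hb : Bornology.IsBounded Ω) {x e : E} (he : e ≠ 0) {ρ : ℝ}
    (hρ : Metric.ball x ρ ⊆ Ω) : ρ / ‖e‖ ≤ exitDist Ω x e := by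
  have hn : 0 < ‖e‖ := norm_pos_iff.2 he
  refine le_csInf (leaves hb x he) ?_
  rintro s ⟨hs0, hs⟩
  rw [div_le_iff₀ hn]
  by_contra hcon
  push Not at hcon
  apply hs
  apply hρ
  rw [Metric.mem_ball, dist_eq_norm, add_sub_cancel_left, norm_smul, Real.norm_of_nonneg hs0]
  exact hcon

theorem exit_pos {Ω : Set E} (hΩ : IsOpen Ω) (hb : Bornology.IsBounded Ω) {x e : E} (he : e ≠ 0)
    (hx : x ∈ Ω) : 0 < exitDist Ω x e := by
  obtain ⟨ρ, hρ, h⟩ := Metric.isOpen_iff.1 hΩ x hx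
  have hn : 0 < ‖e‖ := norm_pos_iff.2 he
  exact lt_of_lt_of_le (by positivity) (exit_ge hb he h)

variable [MeasurableSpace E] [BorelSpace E] [FiniteDimensional ℝ E]

theorem exit_meas {Ω : Set E} (hΩ : IsOpen Ω) (hb : Bornology.IsBounded Ω) :
    Measurable fun z : E × E => exitDist Ω z.1 z.2 := by
  refine measurable_of_Ici fun a => ?_
  by_cases ha : a ≤ 0
  · have : (fun z : E × E => exitDist Ω z.1 z.2) ⁻¹' Ici a = univ := by
      ext z
      simp only [mem_preimage, mem_Ici, mem_univ, iff_true]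
      exact ha.trans (exit_nn _ _ _)
    rw [this]
    exact MeasurableSet.univ
  push Not at ha
  have e1 : (fun z : E × E => exitDist Ω z.1 z.2) ⁻¹' Ici a
      = (⋂ n : ℕ, {z : E × E | ∀ s ∈ Icc (0 : ℝ) (a - 1 / (n + 1)), z.1 + s • z.2 ∈ Ω})
        ∩ {z : E × E | z.2 ≠ 0} := by
    ext z
    simp only [mem_preimage, mem_Ici, mem_inter_iff, mem_iInter, mem_setOf_eq]
    constructor
    · intro h
      have hz : z.2 ≠ 0 := by
        intro h0
        rw [h0, exit_zero] at h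
        linarith
      refine ⟨fun n s hs => ?_, hz⟩
      by_contra hcon
      have h1 := exit_le hs.1 hcon
      have h2 : (0 : ℝ) < 1 / (n + 1) := by positivity
      linarith [hs.2]
    · rintro ⟨h, hz⟩
      refine le_csInf (leaves hb z.1 hz) ?_
      rintro s ⟨hs0, hs⟩
      by_contra hcon
      push Not at hcon
      obtain ⟨n, hn⟩ := exists_nat_one_div_lt (sub_pos.2 hcon)
      exact hs (h n s ⟨hs0, by linarith⟩)
  rw [e1]
  refine (MeasurableSet.iInter fun n => IsOpen.measurableSet ?_).inter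
    (IsOpen.measurableSet ?_)
  · rw [isOpen_iff_eventually]
    intro z hz
    refine isCompact_Icc.eventually_forall_of_forall_eventually fun s hs => ?_
    have hc : Continuous fun w : (E × E) × ℝ => w.1.1 + w.2 • w.1.2 := by fun_prop
    exact hc.continuousAt.eventually (hΩ.mem_nhds (hz s hs))
  · exact isOpen_ne_fun continuous_snd continuous_const

/-- the two-sided weight in the direction `e` -/
noncomputable def wdir (Ω : Set E) (x e : E) : ℝ :=
  (1 / exitDist Ω x e + 1 / exitDist Ω x (-e)) ^ 2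

theorem wdir_nn (Ω : Set E) (x e : E) : 0 ≤ wdir Ω x e := sq_nonneg _

theorem wdir_meas {Ω : Set E} (hΩ : IsOpen Ω) (hb : Bornology.IsBounded Ω) :
    Measurable fun z : E × E => wdir Ω z.1 z.2 := by
  have h1 := exit_meas hΩ hb
  have h2 : Measurable fun z : E × E => exitDist Ω z.1 (-z.2) :=
    h1.comp (measurable_fst.prodMk measurable_snd.neg)
  exact ((measurable_const.div h1).add (measurable_const.div h2)).pow_const 2

/-- the inequality on a line -/
theorem line_ineq {Ω : Set E} (hΩ : IsOpen Ω) (hb : Bornology.IsBounded Ω) {e : E} (he : e ≠ 0)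
    {φ : E → ℝ} (hφ : ContDiff ℝ 1 φ) (hc : HasCompactSupport φ) (hs : tsupport φ ⊆ Ω) (x : E) :
    ∫ s : ℝ, (wdir Ω (x + s • e) e * φ (x + s • e) ^ 2 - 4 * (fderiv ℝ φ (x + s • e) e) ^ 2)
      ≤ 0 := by
  have hdF : Continuous fun x => fderiv ℝ φ x e :=
    (hφ.continuous_fderiv (by norm_num)).clm_apply continuous_const
  set U : Set ℝ := {s | x + s • e ∈ Ω} with hU
  have hcl : Continuous fun s : ℝ => x + s • e :=
    continuous_const.add (continuous_id.smul continuous_const)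
  have hUo : IsOpen U := hΩ.preimage hcl
  have hR : ∀ s : ℝ, ∃ r : ℝ, 0 ≤ r ∧ s + r ∉ U := by
    intro s
    obtain ⟨r, hr0, hr⟩ := leaves hb (x + s • e) he
    refine ⟨r, hr0, ?_⟩
    rw [hU, mem_setOf_eq, add_smul, ← add_assoc]
    exact hr
  have hL : ∀ s : ℝ, ∃ r : ℝ, 0 ≤ r ∧ s - r ∉ U := by
    intro s
    obtain ⟨r, hr0, hr⟩ := leaves hb (x + s • e) (neg_ne_zero.2 he)
    refine ⟨r, hr0, ?_⟩
    rw [hU, mem_setOf_eq, sub_smul, ← add_sub_assoc]
    rw [smul_neg, ← sub_eq_add_neg] at hr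
    exact hr
  have hline : ∀ s : ℝ, HasDerivAt (fun s : ℝ => x + s • e) e s := fun s => by
    simpa using ((hasDerivAt_id s).smul_const e).const_add x
  have hemb : IsClosedEmbedding fun s : ℝ => x + s • e :=
    (Homeomorph.addLeft x).isClosedEmbedding.comp (isClosedEmbedding_smul_left he)
  have hder : ∀ s, HasDerivAt (fun s => φ (x + s • e)) (fderiv ℝ φ (x + s • e) e) s := fun s =>
    ((hφ.differentiable (by norm_num)) _).hasFDerivAt.comp_hasDerivAt s (hline s)
  have hcs : HasCompactSupport fun s => φ (x + s • e) := hc.comp_isClosedEmbedding hemb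
  have hts : tsupport (fun s => φ (x + s • e)) ⊆ U := by
    refine (tsupport_comp_subset_preimage φ hcl).trans fun s h => ?_
    exact hs h
  have h1 := hardy1 hUo hR hL hder (hdF.comp hcl) hcs hts
  have eR : ∀ s : ℝ, exitDist Ω (x + s • e) e = exR U s := by
    intro s
    unfold exitDist exR
    congr 1
    ext r
    rw [mem_setOf_eq, mem_setOf_eq, hU, mem_setOf_eq, add_smul, ← add_assoc]
  have eL : ∀ s : ℝ, exitDist Ω (x + s • e) (-e) = exL U s := by
    intro s
    unfold exitDist exL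
    congr 1
    ext r
    rw [mem_setOf_eq, mem_setOf_eq, hU, mem_setOf_eq, sub_smul, ← add_sub_assoc, smul_neg,
      ← sub_eq_add_neg]
  simp only [wdir, eR, eL]
  exact h1

/-- integration over lines with a direction which is not normalized -/
theorem lines_le {f : E → ℝ} (hf : Integrable f) {e : E} (he : e ≠ 0)
    (h : ∀ x, ∫ s : ℝ, f (x + s • e) ≤ 0) : ∫ x, f x ≤ 0 := by
  have hn : 0 < ‖e‖ := norm_pos_iff.2 he
  set e' : E := (1 / ‖e‖) • e with he'
  have hee' : ⟪e', e'⟫_ℝ = 1 := by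
    rw [he', inner_smul_left, inner_smul_right, real_inner_self_eq_norm_sq]
    simp only [conj_trivial]
    field_simp
  refine Pool.Agent.TH340.FF.integral_le_of_lines hf hee' fun x => ?_
  have hsub : ∫ s : ℝ, f (x + (‖e‖ * s) • e') = |(‖e‖)⁻¹| • ∫ s : ℝ, f (x + s • e') :=
    Measure.integral_comp_mul_left (fun s : ℝ => f (x + s • e')) ‖e‖
  have hline2 : ∀ s : ℝ, x + (‖e‖ * s) • e' = x + s • e := by
    intro s
    rw [he', smul_smul]
    congr 2
    field_simp
  simp only [hline2] at hsub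
  have hgoal := h x
  rw [hsub, smul_eq_mul, abs_of_pos (by positivity)] at hgoal
  by_contra hcon
  push Not at hcon
  have : 0 < (‖e‖)⁻¹ * ∫ s : ℝ, f (x + s • e') := by positivity
  linarith

/-- a bound for the weight on compact sets -/
theorem wdir_le {Ω : Set E} (hb : Bornology.IsBounded Ω) {x e : E} (he : e ≠ 0) {ρ : ℝ}
    (hρ : 0 < ρ) (hball : Metric.ball x ρ ⊆ Ω) : wdir Ω x e ≤ (2 * ‖e‖ / ρ) ^ 2 := by
  have hn : 0 < ‖e‖ := norm_pos_iff.2 he
  have h1 := exit_ge hb he hball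
  have h2 := exit_ge hb (neg_ne_zero.2 he) hball
  rw [norm_neg] at h2
  have h3 : 0 < ρ / ‖e‖ := by positivity
  have h4 : 1 / exitDist Ω x e ≤ ‖e‖ / ρ := by
    refine (one_div_le_one_div_of_le h3 h1).trans (le_of_eq ?_)
    rw [one_div_div]
  have h5 : 1 / exitDist Ω x (-e) ≤ ‖e‖ / ρ := by
    refine (one_div_le_one_div_of_le h3 h2).trans (le_of_eq ?_)
    rw [one_div_div]
  have h6 : 0 ≤ 1 / exitDist Ω x e := by have := exit_nn Ω x e; positivity
  have h7 : 0 ≤ 1 / exitDist Ω x (-e) := by have := exit_nn Ω x (-e); positivity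
  unfold wdir
  refine pow_le_pow_left₀ (by linarith) ?_ 2
  have e1 : 2 * ‖e‖ / ρ = ‖e‖ / ρ + ‖e‖ / ρ := by ring
  rw [e1]
  linarith

/-- The Hardy inequality in a fixed direction -/
theorem hardy_dir {Ω : Set E} (hΩ : IsOpen Ω) (hb : Bornology.IsBounded Ω) {e : E} (he : e ≠ 0)
    {φ : E → ℝ} (hφ : ContDiff ℝ 1 φ) (hc : HasCompactSupport φ) (hs : tsupport φ ⊆ Ω) :
    Integrable (fun x => wdir Ω x e * φ x ^ 2) ∧
    ∫ x, wdir Ω x e * φ x ^ 2 ≤ 4 * ∫ x, (fderiv ℝ φ x e) ^ 2 := by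
  obtain ⟨ρ, hρ, hρ2⟩ := hc.isCompact.exists_thickening_subset_open hΩ hs
  have hball : ∀ x ∈ tsupport φ, Metric.ball x ρ ⊆ Ω := fun x hx =>
    (Metric.ball_subset_thickening hx ρ).trans hρ2
  have hdF : Continuous fun x => fderiv ℝ φ x e :=
    (hφ.continuous_fderiv (by norm_num)).clm_apply continuous_const
  have hdFc : HasCompactSupport fun x => fderiv ℝ φ x e := by
    refine (hc.fderiv (𝕜 := ℝ)).comp_left (g := fun L : E →L[ℝ] ℝ => L e) (by simp)
  have c2 : Continuous fun x => (fderiv ℝ φ x e) ^ 2 := hdF.pow 2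
  have c3 : Continuous fun x => φ x ^ 2 := hφ.continuous.pow 2
  have s2 : HasCompactSupport fun x => (fderiv ℝ φ x e) ^ 2 :=
    hdFc.comp_left (g := fun y : ℝ => y ^ 2) (by simp)
  have s3 : HasCompactSupport fun x => φ x ^ 2 :=
    hc.comp_left (g := fun y : ℝ => y ^ 2) (by simp)
  have i2 : Integrable fun x => (fderiv ℝ φ x e) ^ 2 := c2.integrable_of_hasCompactSupport s2
  have i3 : Integrable fun x => φ x ^ 2 := c3.integrable_of_hasCompactSupport s3
  have hwm : Measurable fun x => wdir Ω x e :=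
    (wdir_meas hΩ hb).comp (g := fun z : E × E => wdir Ω z.1 z.2) (f := fun x : E => (x, e))
      measurable_prodMk_right
  have m1 : AEStronglyMeasurable (fun x => wdir Ω x e * φ x ^ 2) volume :=
    (hwm.mul c3.measurable).aestronglyMeasurable
  have b1 : ∀ x, ‖wdir Ω x e * φ x ^ 2‖ ≤ (2 * ‖e‖ / ρ) ^ 2 * φ x ^ 2 := by
    intro x
    rw [Real.norm_of_nonneg (mul_nonneg (wdir_nn Ω x e) (sq_nonneg (φ x)))]
    by_cases hx : x ∈ tsupport φ
    · exact mul_le_mul_of_nonneg_right (wdir_le hb he hρ (hball x hx)) (sq_nonneg _)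
    · rw [image_eq_zero_of_notMem_tsupport hx]
      simp
  have i1 : Integrable fun x => wdir Ω x e * φ x ^ 2 :=
    (i3.const_mul ((2 * ‖e‖ / ρ) ^ 2)).mono' m1 (Eventually.of_forall b1)
  refine ⟨i1, ?_⟩
  have i5 : Integrable fun x => 4 * (fderiv ℝ φ x e) ^ 2 := i2.const_mul 4
  have i4 : Integrable fun x => wdir Ω x e * φ x ^ 2 - 4 * (fderiv ℝ φ x e) ^ 2 := i1.sub i5
  have key : ∫ x, (wdir Ω x e * φ x ^ 2 - 4 * (fderiv ℝ φ x e) ^ 2) ≤ 0 :=
    lines_le (f := fun x => wdir Ω x e * φ x ^ 2 - 4 * (fderiv ℝ φ x e) ^ 2) i4 he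
      fun x => line_ineq hΩ hb he hφ hc hs x
  rw [integral_sub i1 i5, integral_const_mul] at key
  linarith

end gen

end Pool.Agent.X96.HW
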