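import Mathlib

/-!
The Hardy inequality on an open subset of the line, with the weight
`(1 / δ₊ + 1 / δ₋)² / 4`, where `δ₊` and `δ₋` are the distances to the complement to the right and
to the left.
-/

set_option autoImplicit false

open MeasureTheory Set Filter Topology

namespace Pool.Agent.X96.HW

/-- the distance to the complement to the right -/
noncomputable def exR (U : Set ℝ) (s : ℝ) : ℝ := sInf {r : ℝ | 0 ≤ r ∧ s + r ∉ U}

/-- the distance to the complement to the left -/
noncomputable def exL (U : Set ℝ) (s : ℝ) : ℝ := sInf {r : ℝ | 0 ≤ r ∧ s - r ∉ U}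

theorem exL_eq (U : Set ℝ) (s : ℝ) : exL U s = exR (Neg.neg ⁻¹' U) (-s) := by
  unfold exL exR
  congr 1
  ext r
  simp only [mem_setOf_eq, mem_preimage, neg_add_rev, neg_neg]
  have : -r + s = s - r := by ring
  rw [this]

theorem exR_pos {U : Set ℝ} (hU : IsOpen U) (hR : ∀ s, ∃ r : ℝ, 0 ≤ r ∧ s + r ∉ U) {s : ℝ}
    (hs : s ∈ U) : 0 < exR U s := by
  obtain ⟨ρ, hρ, hb⟩ := Metric.isOpen_iff.1 hU s hs
  refine lt_of_lt_of_le hρ (le_csInf (hR s) ?_)
  rintro r ⟨hr0, hr⟩
  by_contra hcon
  push Not at hcon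
  apply hr
  apply hb
  rw [Metric.mem_ball, Real.dist_eq]
  have : s + r - s = r := by ring
  rw [this, abs_of_nonneg hr0]
  exact hcon

theorem exR_near {U : Set ℝ} (hU : IsOpen U) (hR : ∀ s, ∃ r : ℝ, 0 ≤ r ∧ s + r ∉ U) {s : ℝ}
    (hs : s ∈ U) : ∀ᶠ s' in 𝓝 s, exR U s' = exR U s - (s' - s) := by
  obtain ⟨ρ, hρ, hb⟩ := Metric.isOpen_iff.1 hU s hs
  have hbd : ∀ s : ℝ, BddBelow {r : ℝ | 0 ≤ r ∧ s + r ∉ U} := fun s => ⟨0, fun r hr => hr.1⟩
  filter_upwards [Metric.ball_mem_nhds s hρ] with s' hs'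
  rw [Metric.mem_ball, Real.dist_eq, abs_lt] at hs'
  have hin : ∀ z : ℝ, z ∈ uIcc s s' → z ∈ U := by
    intro z hz
    apply hb
    rw [Metric.mem_ball, Real.dist_eq, abs_lt]
    rcases le_total s s' with h | h
    · rw [uIcc_of_le h] at hz
      exact ⟨by linarith [hz.1], by linarith [hz.2]⟩
    · rw [uIcc_of_ge h] at hz
      exact ⟨by linarith [hz.1], by linarith [hz.2]⟩
  have hglb : IsGLB {r : ℝ | 0 ≤ r ∧ s' + r ∉ U} (exR U s - (s' - s)) := by
    refine ⟨?_, ?_⟩
    · rintro r ⟨hr0, hr⟩
      have h1 : r + (s' - s) ∈ {r : ℝ | 0 ≤ r ∧ s + r ∉ U} := by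
        refine ⟨?_, ?_⟩
        · by_contra hcon
          push Not at hcon
          exact hr (hin _ (by
            rw [uIcc_of_ge (by linarith)]
            exact ⟨by linarith, by linarith⟩))
        · have : s + (r + (s' - s)) = s' + r := by ring
          rw [this]
          exact hr
      have h2 : exR U s ≤ r + (s' - s) := csInf_le (hbd s) h1
      linarith
    · intro c hc
      have h1 : c + (s' - s) ≤ exR U s := by
        refine le_csInf (hR s) ?_
        rintro r ⟨hr0, hr⟩
        have h2 : r - (s' - s) ∈ {r : ℝ | 0 ≤ r ∧ s' + r ∉ U} := by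
          refine ⟨?_, ?_⟩
          · by_contra hcon
            push Not at hcon
            exact hr (hin _ (by
              rw [uIcc_of_le (by linarith)]
              exact ⟨by linarith, by linarith⟩))
          · have : s' + (r - (s' - s)) = s + r := by ring
            rw [this]
            exact hr
        have := hc h2
        linarith
      linarith
  exact hglb.csInf_eq (hR s')

theorem exR_deriv {U : Set ℝ} (hU : IsOpen U) (hR : ∀ s, ∃ r : ℝ, 0 ≤ r ∧ s + r ∉ U) {s : ℝ}
    (hs : s ∈ U) : HasDerivAt (exR U) (-1) s := by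
  have h1 : HasDerivAt (fun s' => exR U s - (s' - s)) (-1) s := by
    simpa using ((hasDerivAt_id s).sub_const s).const_sub (exR U s)
  exact h1.congr_of_eventuallyEq (exR_near hU hR hs)

theorem neg_hyp {U : Set ℝ} (hL : ∀ s, ∃ r : ℝ, 0 ≤ r ∧ s - r ∉ U) :
    ∀ s, ∃ r : ℝ, 0 ≤ r ∧ s + r ∉ Neg.neg ⁻¹' U := by
  intro s
  obtain ⟨r, h0, hr⟩ := hL (-s)
  refine ⟨r, h0, ?_⟩
  simp only [mem_preimage, neg_add_rev]
  have : -r + -s = -s - r := by ring
  rw [this]
  exact hr

theorem exL_pos {U : Set ℝ} (hU : IsOpen U) (hL : ∀ s, ∃ r : ℝ, 0 ≤ r ∧ s - r ∉ U) {s : ℝ}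
    (hs : s ∈ U) : 0 < exL U s := by
  rw [exL_eq]
  exact exR_pos (hU.preimage continuous_neg) (neg_hyp hL) (by simpa using hs)

theorem exL_deriv {U : Set ℝ} (hU : IsOpen U) (hL : ∀ s, ∃ r : ℝ, 0 ≤ r ∧ s - r ∉ U) {s : ℝ}
    (hs : s ∈ U) : HasDerivAt (exL U) 1 s := by
  have h1 := exR_deriv (hU.preimage continuous_neg) (neg_hyp hL) (s := -s) (by simpa using hs)
  have h2 : HasDerivAt (fun s => exR (Neg.neg ⁻¹' U) (-s)) (-1 * -1) s :=
    h1.comp s (hasDerivAt_neg s)
  have e1 : exL U = fun s => exR (Neg.neg ⁻¹' U) (-s) := funext (exL_eq U)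
  rw [e1]
  simpa using h2

/-- **Hardy inequality on an open subset of the line.** -/
theorem hardy1 {U : Set ℝ} (hU : IsOpen U) (hR : ∀ s, ∃ r : ℝ, 0 ≤ r ∧ s + r ∉ U)
    (hL : ∀ s, ∃ r : ℝ, 0 ≤ r ∧ s - r ∉ U) {f f' : ℝ → ℝ} (hf : ∀ s, HasDerivAt f (f' s) s)
    (hf' : Continuous f') (hc : HasCompactSupport f) (hs : tsupport f ⊆ U) :
    ∫ s, ((1 / exR U s + 1 / exL U s) ^ 2 * f s ^ 2 - 4 * f' s ^ 2) ≤ 0 := by
  have hcf : Continuous f := continuous_iff_continuousAt.2 fun s => (hf s).continuousAt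
  have hf'e : f' = deriv f := funext fun s => (hf s).deriv.symm
  have hc' : HasCompactSupport f' := by rw [hf'e]; exact hc.deriv
  have hs' : tsupport f' ⊆ tsupport f := by
    rw [hf'e]
    exact tsupport_deriv_subset
  set X : ℝ → ℝ := fun s => 1 / exR U s - 1 / exL U s with hX
  set X' : ℝ → ℝ := fun s => (1 / exR U s) ^ 2 + (1 / exL U s) ^ 2 with hX'
  have f0 : ∀ s ∉ U, f s = 0 := fun s h => image_eq_zero_of_notMem_tsupport fun h' => h (hs h')
  have f'0 : ∀ s ∉ U, f' s = 0 := fun s h =>
    image_eq_zero_of_notMem_tsupport fun h' => h (hs (hs' h'))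
  set h : ℝ → ℝ := fun s => f s ^ 2 * X s with hh
  set h' : ℝ → ℝ := fun s => 2 * f s * f' s * X s + f s ^ 2 * X' s with hh'
  -- a general continuity principle
  have cont : ∀ a b : ℝ → ℝ, Continuous a → tsupport a ⊆ U → (∀ s ∈ U, ContinuousAt b s) →
      Continuous fun s => a s * b s := by
    intro a b ha hta hb
    rw [continuous_iff_continuousAt]
    intro s
    by_cases hsU : s ∈ tsupport a
    · exact ha.continuousAt.mul (hb s (hta hsU))
    · have h1 : ∀ᶠ z in 𝓝 s, a z = 0 := by
        filter_upwards [(isClosed_tsupport a).isOpen_compl.mem_nhds hsU] with z hz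
        exact image_eq_zero_of_notMem_tsupport hz
      have h2 : (fun s => a s * b s) =ᶠ[𝓝 s] fun _ => 0 := by
        filter_upwards [h1] with z hz
        rw [hz, zero_mul]
      exact (continuousAt_const.congr h2.symm)
  have cR : ∀ s ∈ U, ContinuousAt (fun s => 1 / exR U s) s := fun s hsU =>
    continuousAt_const.div (exR_deriv hU hR hsU).continuousAt (exR_pos hU hR hsU).ne'
  have cL : ∀ s ∈ U, ContinuousAt (fun s => 1 / exL U s) s := fun s hsU =>
    continuousAt_const.div (exL_deriv hU hL hsU).continuousAt (exL_pos hU hL hsU).ne'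
  have ts2 : tsupport (fun s => f s ^ 2) ⊆ U := by
    refine (closure_mono ?_).trans hs
    intro s hs2 h0
    apply hs2
    show f s ^ 2 = 0
    have : f s = 0 := h0
    rw [this]
    ring
  have ts3 : tsupport (fun s => 2 * f s * f' s) ⊆ U := by
    refine (closure_mono ?_).trans hs
    intro s hs2 h0
    apply hs2
    show 2 * f s * f' s = 0
    have : f s = 0 := h0
    rw [this]
    ring
  have chh' : Continuous h' := by
    refine (cont (fun s => 2 * f s * f' s) X (by fun_prop) ts3 fun s hsU => ?_).add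
      (cont (fun s => f s ^ 2) X' (by fun_prop) ts2 fun s hsU => ?_)
    · exact (cR s hsU).sub (cL s hsU)
    · exact ((cR s hsU).pow 2).add ((cL s hsU).pow 2)
  have chh : Continuous h := by
    refine cont (fun s => f s ^ 2) X (by fun_prop) ts2 fun s hsU => ?_
    exact (cR s hsU).sub (cL s hsU)
  have cW : Continuous fun s => f s ^ 2 * (1 / exR U s + 1 / exL U s) ^ 2 := by
    refine cont (fun s => f s ^ 2) _ (by fun_prop) ts2 fun s hsU => ?_
    exact ((cR s hsU).add (cL s hsU)).pow 2
  have sup0 : ∀ g : ℝ → ℝ, (∀ s, f s = 0 → g s = 0) → HasCompactSupport g := by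
    intro g hg
    refine HasCompactSupport.intro' (K := tsupport f) hc (isClosed_tsupport f) fun s hsn => ?_
    exact hg s (image_eq_zero_of_notMem_tsupport hsn)
  have hder : ∀ s, HasDerivAt h (h' s) s := by
    intro s
    by_cases hsU : s ∈ U
    · have d1 : HasDerivAt (fun s => 1 / exR U s) ((1 / exR U s) ^ 2) s := by
        have := (exR_deriv hU hR hsU).inv (exR_pos hU hR hsU).ne'
        have e1 : (fun s => 1 / exR U s) = fun s => (exR U s)⁻¹ := by funext s; rw [one_div]
        rw [e1]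
        refine this.congr_deriv ?_
        rw [one_div, inv_pow]
        simp [neg_neg, div_eq_mul_inv]
      have d2 : HasDerivAt (fun s => 1 / exL U s) (-(1 / exL U s) ^ 2) s := by
        have := (exL_deriv hU hL hsU).inv (exL_pos hU hL hsU).ne'
        have e1 : (fun s => 1 / exL U s) = fun s => (exL U s)⁻¹ := by funext s; rw [one_div]
        rw [e1]
        refine this.congr_deriv ?_
        rw [one_div, inv_pow]
        simp [div_eq_mul_inv]
      have d3 : HasDerivAt X (X' s) s := by
        refine (d1.sub d2).congr_deriv ?_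
        simp only [hX']
        ring
      refine (((hf s).pow 2).mul d3).congr_deriv ?_
      simp only [hh', Pi.pow_apply]
      push_cast
      ring
    · have hns : s ∉ tsupport f := fun hc => hsU (hs hc)
      have h1 : h =ᶠ[𝓝 s] fun _ => 0 := by
        filter_upwards [(isClosed_tsupport f).isOpen_compl.mem_nhds hns] with z hz
        simp only [hh]
        rw [image_eq_zero_of_notMem_tsupport hz]
        ring
      have h2 : h' s = 0 := by
        simp only [hh']
        rw [f0 s hsU]
        ring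
      rw [h2]
      exact (hasDerivAt_const s (0 : ℝ)).congr_of_eventuallyEq h1
  have ih : Integrable h := chh.integrable_of_hasCompactSupport
    (sup0 _ fun s hs0 => by simp only [hh]; rw [hs0]; ring)
  have ih' : Integrable h' := chh'.integrable_of_hasCompactSupport
    (sup0 _ fun s hs0 => by simp only [hh']; rw [hs0]; ring)
  have i0 : ∫ s, h' s = 0 := integral_eq_zero_of_hasDerivAt_of_integrable hder ih' ih
  have iW : Integrable fun s => f s ^ 2 * (1 / exR U s + 1 / exL U s) ^ 2 :=
    cW.integrable_of_hasCompactSupport (sup0 _ fun s hs0 => by rw [hs0]; ring)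
  have if' : Integrable fun s => 4 * f' s ^ 2 := by
    refine (Continuous.integrable_of_hasCompactSupport (hf'.pow 2) ?_).const_mul 4
    exact hc'.comp_left (g := fun y : ℝ => y ^ 2) (by simp)
  have e1 : ∫ s, ((1 / exR U s + 1 / exL U s) ^ 2 * f s ^ 2 - 4 * f' s ^ 2)
      ≤ ∫ s, 2 * h' s := by
    refine integral_mono ?_ (ih'.const_mul 2) fun s => ?_
    · refine (iW.sub if').congr (Eventually.of_forall fun s => ?_)
      simp only [Pi.sub_apply]
      ring
    · simp only [hh', hX, hX']
      nlinarith [sq_nonneg (2 * f' s + f s * (1 / exR U s - 1 / exL U s))]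
  refine e1.trans (le_of_eq ?_)
  rw [integral_const_mul, i0, mul_zero]

end Pool.Agent.X96.HW
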