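import Pool.Agent.X96.HW.Line

/-!
Hardy weights: averages over the directions, domination, convex combinations.
-/

set_option autoImplicit false

open MeasureTheory Set Filter Topology
open scoped InnerProductSpace ENNReal ContDiff

namespace Pool.Agent.X96.HW

/-- `W ≥ 0` is a Hardy weight in `Ω`: `∫ W φ² ≤ ∫ |∇φ|²` for all smooth functions `φ` with compact
support in `Ω`. -/
def HardyWeight {E : Type*} [NormedAddCommGroup E] [NormedSpace ℝ E] [MeasureSpace E]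
    (Ω : Set E) (W : E → ℝ) : Prop :=
  Measurable W ∧ (∀ x ∈ Ω, 0 ≤ W x) ∧
    ∀ φ : E → ℝ, ContDiff ℝ ∞ φ → HasCompactSupport φ → tsupport φ ⊆ Ω →
      ∫⁻ x in Ω, ENNReal.ofReal (W x * φ x ^ 2) ≤ ENNReal.ofReal (∫ x, ‖fderiv ℝ φ x‖ ^ 2)

/-- the weight `¼ ∫ (1/δ(x,e) + 1/δ(x,-e))² dμ(e)` -/
noncomputable def lineWeight {E : Type*} [AddCommGroup E] [Module ℝ E] [MeasurableSpace E]
    (Ω : Set E) (μ : Measure E) (x : E) : ℝ :=
  1 / 4 * ∫ e, (1 / exitDist Ω x e + 1 / exitDist Ω x (-e)) ^ 2 ∂μ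

section gen

variable {E : Type*} [NormedAddCommGroup E] [InnerProductSpace ℝ E] [MeasureSpace E]

theorem HardyWeight.mono {Ω : Set E} (hΩ : MeasurableSet Ω) {W W' : E → ℝ} (h : HardyWeight Ω W)
    (hm : Measurable W') (h0 : ∀ x ∈ Ω, 0 ≤ W' x) (h1 : ∀ x ∈ Ω, W' x ≤ W x) :
    HardyWeight Ω W' := by
  refine ⟨hm, h0, fun φ h2 h3 h4 => (setLIntegral_mono' hΩ fun x hx => ?_).trans
    (h.2.2 φ h2 h3 h4)⟩
  exact ENNReal.ofReal_le_ofReal (mul_le_mul_of_nonneg_right (h1 x hx) (sq_nonneg _))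

theorem HardyWeight.comb {Ω : Set E} (hΩ : MeasurableSet Ω) {W W' : E → ℝ} (h : HardyWeight Ω W)
    (h' : HardyWeight Ω W') {θ : ℝ} (h0 : 0 ≤ θ) (h1 : θ ≤ 1)
    (hcm : ∀ φ : E → ℝ, Continuous φ → Measurable φ) :
    HardyWeight Ω fun x => θ * W x + (1 - θ) * W' x := by
  refine ⟨(h.1.const_mul θ).add (h'.1.const_mul (1 - θ)), fun x hx => ?_, fun φ h2 h3 h4 => ?_⟩
  · have a1 := h.2.1 x hx
    have a2 := h'.2.1 x hx
    have a3 : 0 ≤ 1 - θ := by linarith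
    positivity
  have mφ : Measurable φ := hcm φ h2.continuous
  have a3 : 0 ≤ 1 - θ := by linarith
  have e1 : ∀ x ∈ Ω, ENNReal.ofReal ((θ * W x + (1 - θ) * W' x) * φ x ^ 2)
      = ENNReal.ofReal θ * ENNReal.ofReal (W x * φ x ^ 2)
        + ENNReal.ofReal (1 - θ) * ENNReal.ofReal (W' x * φ x ^ 2) := by
    intro x hx
    have a1 := h.2.1 x hx
    have a2 := h'.2.1 x hx
    rw [← ENNReal.ofReal_mul h0, ← ENNReal.ofReal_mul a3,
      ← ENNReal.ofReal_add (by positivity) (by positivity)]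
    congr 1
    ring
  rw [setLIntegral_congr_fun hΩ e1, lintegral_add_left, lintegral_const_mul, lintegral_const_mul]
  · calc _ ≤ ENNReal.ofReal θ * ENNReal.ofReal (∫ x, ‖fderiv ℝ φ x‖ ^ 2)
          + ENNReal.ofReal (1 - θ) * ENNReal.ofReal (∫ x, ‖fderiv ℝ φ x‖ ^ 2) := by
          gcongr
          · exact h.2.2 φ h2 h3 h4
          · exact h'.2.2 φ h2 h3 h4
      _ = ENNReal.ofReal (∫ x, ‖fderiv ℝ φ x‖ ^ 2) := by
          rw [← add_mul, ← ENNReal.ofReal_add h0 a3]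
          simp
  · exact (h'.1.mul (mφ.pow_const 2)).ennreal_ofReal
  · exact (h.1.mul (mφ.pow_const 2)).ennreal_ofReal
  · exact ((h.1.mul (mφ.pow_const 2)).ennreal_ofReal).const_mul _

variable [BorelSpace E] [FiniteDimensional ℝ E] [Measure.IsAddHaarMeasure (volume : Measure E)]

omit [MeasureSpace E] [BorelSpace E] [Measure.IsAddHaarMeasure (volume : Measure E)] in
theorem fderiv_eq_inner (φ : E → ℝ) (x e : E) :
    ∃ ξ : E, ‖ξ‖ = ‖fderiv ℝ φ x‖ ∧ ∀ e, fderiv ℝ φ x e = ⟪e, ξ⟫_ℝ := by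
  have _ := e
  refine ⟨(InnerProductSpace.toDual ℝ E).symm (fderiv ℝ φ x), LinearIsometryEquiv.norm_map _ _,
    fun e => ?_⟩
  rw [real_inner_comm, InnerProductSpace.toDual_symm_apply]

end gen

end Pool.Agent.X96.HW
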